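import Mathlib

set_option autoImplicit false

/-! An infinite antichain of sum indecomposable permutations (the increasing oscillation with both
ends doubled), given by explicit words, followed by blocks of length `k`. -/

namespace Pool.Agent.Q285.Anti

/-- x-coordinates of the marker -/
def X (N t : ℕ) : ℕ := if t ≤ 1 then t else if t ≤ 2 * N then 2 * t else 2 * N + t

/-- y-coordinates of the marker -/
def Y (x : ℕ) : ℕ := if x % 4 ≤ 1 then x + 4 else x - 4

/-- labels -/
def L (N t : ℕ) : ℕ := if (X N t) % 4 ≤ 1 then (X N t) / 2 else (X N t - 4) / 2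

/-- marker followed by blocks -/
def W (N k : ℕ) (ρ : ℕ → ℕ → ℕ) (t : ℕ) : ℕ :=
  if t < 2 * N + 3 then Y (X N t) else
    4 * N + 6 + ((t - (2 * N + 3)) / k) * k + ρ ((t - (2 * N + 3)) / k) ((t - (2 * N + 3)) % k)

lemma X_lt {N t u : ℕ} (hN : 2 ≤ N) (htu : t < u) : X N t < X N u := by
  unfold X
  split_ifs <;> omega

lemma X_mod {N t : ℕ} (hN : 2 ≤ N) (ht : t < 2 * N + 3) :
    (X N t % 4 = 0 ∨ X N t % 4 = 2 ∧ 6 ≤ X N t ∨ X N t = 1 ∨ X N t = 4 * N + 1) ∧
      X N t ≤ 4 * N + 2 := by
  unfold X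
  split_ifs <;> omega

lemma inv_char {N t u : ℕ} (hN : 2 ≤ N) (htu : t < u) (hu : u < 2 * N + 3)
    (h : Y (X N u) < Y (X N t)) : X N u % 4 = 2 ∧ X N t % 4 ≤ 1 ∧ X N u < X N t + 8 ∧
      X N t < X N u ∧ 6 ≤ X N u := by
  have h1 := X_lt hN htu
  have h2 := X_mod hN hu
  have h3 := X_mod hN (htu.trans hu)
  generalize X N u = x at *
  generalize X N t = y at *
  unfold Y at h
  split_ifs at h <;> omega

lemma label_step {N t u : ℕ} (hN : 2 ≤ N) (htu : t < u) (hu : u < 2 * N + 3)
    (h : Y (X N u) < Y (X N t)) : L N t ≤ L N u + 1 ∧ L N u ≤ L N t + 1 := by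
  obtain ⟨h1, h2, h3, h4, h5⟩ := inv_char hN htu hu h
  unfold L
  rw [if_pos h2, if_neg (by omega)]
  generalize X N u = x at *
  generalize X N t = y at *
  omega

lemma degree {N u a b c : ℕ} (hN : 2 ≤ N) (hu : u < 2 * N + 3) (hab : a < b) (hbc : b < c)
    (hcu : c < u) (ha : Y (X N u) < Y (X N a)) (hb : Y (X N u) < Y (X N b))
    (hc : Y (X N u) < Y (X N c)) : u = 3 ∨ u = 2 * N + 2 := by
  obtain ⟨a1, a2, a3, a4, a5⟩ := inv_char hN (by omega) hu ha
  obtain ⟨b1, b2, b3, b4, b5⟩ := inv_char hN (by omega) hu hb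
  obtain ⟨c1, c2, c3, c4, c5⟩ := inv_char hN (by omega) hu hc
  have k1 := X_lt hN hab
  have k2 := X_lt hN hbc
  have ma := X_mod hN (t := a) (by omega)
  have mb := X_mod hN (t := b) (by omega)
  have mc := X_mod hN (t := c) (by omega)
  have hx : X N u = 6 ∨ X N u = 4 * N + 2 := by
    have mu := X_mod hN hu
    generalize X N u = x at *
    generalize X N a = y at *
    generalize X N b = z at *
    generalize X N c = w at *
    have : y = 1 ∨ y = 4 * N + 1 ∨ z = 1 ∨ z = 4 * N + 1 ∨ w = 1 ∨ w = 4 * N + 1 := by omega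
    omega
  unfold X at hx
  split_ifs at hx <;> omega

/-- the component of a position -/
def comp (N k t : ℕ) : ℕ := if t < 2 * N + 3 then 0 else (t - (2 * N + 3)) / k + 1

lemma Y_lt {N t : ℕ} (hN : 2 ≤ N) (ht : t < 2 * N + 3) : Y (X N t) < 4 * N + 6 := by
  have := X_mod hN ht
  unfold Y
  split_ifs <;> omega

lemma comp_mono (N k : ℕ) {t u : ℕ} (h : t ≤ u) : comp N k t ≤ comp N k u := by
  unfold comp
  split_ifs
  · exact le_rfl
  · exact Nat.zero_le _
  · omega
  · exact Nat.succ_le_succ (Nat.div_le_div_right (by omega))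

lemma comp_inv {N k : ℕ} {ρ : ℕ → ℕ → ℕ} (hN : 2 ≤ N) (hk : 0 < k)
    (hρ : ∀ b c, c < k → ρ b c < k) {t u : ℕ} (htu : t < u)
    (h : W N k ρ u < W N k ρ t) : comp N k t = comp N k u := by
  unfold W at h
  unfold comp
  split_ifs at h ⊢ with h1 h2 h3
  · rfl
  · have := Y_lt (t := t) hN (by assumption)
    have h0 : 4 * N + 6 ≤ 4 * N + 6 + ((u - (2 * N + 3)) / k) * k +
      ρ ((u - (2 * N + 3)) / k) ((u - (2 * N + 3)) % k) := by
      rw [add_assoc]; exact Nat.le_add_right _ _
    omega
  · omega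
  · set a := t - (2 * N + 3) with ha
    set b := u - (2 * N + 3) with hb
    have hab : a / k ≤ b / k := Nat.div_le_div_right (by omega)
    rcases hab.eq_or_lt with h4 | h4
    · rw [h4]
    · exfalso
      have h5 := hρ (a / k) (a % k) (Nat.mod_lt _ hk)
      have h6 : (a / k + 1) * k ≤ (b / k) * k := Nat.mul_le_mul_right k h4
      rw [add_mul, one_mul] at h6
      omega

/-- same component of marker if `comp = 0`; in a block the positions are within `k` -/
lemma comp_dist {N k : ℕ} (hk : 0 < k) {t u : ℕ} (h : comp N k t = comp N k u) :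
    u < 2 * N + 3 ∨ u < t + k := by
  unfold comp at h
  split_ifs at h with h1 h2 h2
  · exact Or.inl h2
  · right
    set a := t - (2 * N + 3) with ha
    set b := u - (2 * N + 3) with hb
    have h3 : a / k = b / k := by omega
    have h4 := Nat.div_add_mod a k
    have h5 := Nat.div_add_mod b k
    have h6 := Nat.mod_lt a hk
    have h7 := Nat.mod_lt b hk
    rw [h3] at h4
    omega

/-- the key comparison of markers -/
lemma marker_le {M N k : ℕ} (hM : 2 ≤ M) (hN : 2 ≤ N) (hk : 0 < k) (hkM : k ≤ 2 * M + 2)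
    {ρ ρ' : ℕ → ℕ → ℕ} (hρ' : ∀ b c, c < k → ρ' b c < k)
    (h : ℕ → ℕ) (hmono : ∀ t u, t < u → u < 2 * M + 3 → h t < h u)
    (hord : ∀ t u, t < 2 * M + 3 → u < 2 * M + 3 →
      (W M k ρ t < W M k ρ u ↔ W N k ρ' (h t) < W N k ρ' (h u))) : N ≤ M := by
  have hW : ∀ t, t < 2 * M + 3 → W M k ρ t = Y (X M t) := fun t ht => by
    unfold W; rw [if_pos ht]
  have hcmono : ∀ t u, t ≤ u → u < 2 * M + 3 → comp N k (h t) ≤ comp N k (h u) := by
    intro t u htu hu
    rcases htu.eq_or_lt with h1 | h1
    · rw [h1]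
    · exact comp_mono N k (hmono t u h1 hu).le
  -- inversions of the source
  have e1 : Y (X M 3) < Y (X M 0) := by unfold X Y; split_ifs <;> omega
  have e2 : Y (X M 3) < Y (X M 1) := by unfold X Y; split_ifs <;> omega
  have e3 : Y (X M 3) < Y (X M 2) := by unfold X Y; split_ifs <;> omega
  have e4 : Y (X M (2 * M + 2)) < Y (X M (2 * M - 2)) := by unfold X Y; split_ifs <;> omega
  have e5 : Y (X M (2 * M + 2)) < Y (X M (2 * M)) := by unfold X Y; split_ifs <;> omega
  have e6 : Y (X M (2 * M + 2)) < Y (X M (2 * M + 1)) := by unfold X Y; split_ifs <;> omega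
  have e7 : ∀ j, 1 ≤ j → j < M → Y (X M (2 * j + 1)) < Y (X M (2 * j)) := by
    intro j h1 h2; unfold X Y; split_ifs <;> omega
  have e8 : ∀ j, 1 ≤ j → j + 1 < M → Y (X M (2 * j + 3)) < Y (X M (2 * j)) := by
    intro j h1 h2; unfold X Y; split_ifs <;> omega
  have tr : ∀ t u, t < u → u < 2 * M + 3 → Y (X M u) < Y (X M t) →
      W N k ρ' (h u) < W N k ρ' (h t) := by
    intro t u htu hu hlt
    rw [← hord u t hu (htu.trans hu), hW u hu, hW t (htu.trans hu)]
    exact hlt
  have cc : ∀ t u, t < u → u < 2 * M + 3 → Y (X M u) < Y (X M t) →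
      comp N k (h t) = comp N k (h u) := fun t u htu hu hlt =>
    comp_inv hN hk hρ' (hmono t u htu hu) (tr t u htu hu hlt)
  have strad : ∀ s, 1 ≤ s → s < 2 * M + 3 → ∃ t u, t < s ∧ s ≤ u ∧ u < 2 * M + 3 ∧
      Y (X M u) < Y (X M t) := by
    intro s h1 h2
    by_cases hs3 : s ≤ 3
    · exact ⟨0, 3, by omega, by omega, by omega, e1⟩
    by_cases hs4 : 2 * M - 2 < s
    · exact ⟨2 * M - 2, 2 * M + 2, by omega, by omega, by omega, e4⟩
    rcases Nat.even_or_odd' s with ⟨j, hj | hj⟩
    · refine ⟨2 * (j - 1), 2 * (j - 1) + 3, by omega, by omega, by omega, ?_⟩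
      exact e8 (j - 1) (by omega) (by omega)
    · refine ⟨2 * j, 2 * j + 1, by omega, by omega, by omega, ?_⟩
      exact e7 j (by omega) (by omega)
  have call : ∀ s, s < 2 * M + 3 → comp N k (h s) = comp N k (h 0) := by
    intro s
    induction s with
    | zero => intro _; rfl
    | succ s ih =>
      intro hs
      have ih' := ih (by omega)
      obtain ⟨t, u, h1, h2, h3, h4⟩ := strad (s + 1) (by omega) hs
      have h5 := cc t u (by omega) h3 h4
      have h6 := hcmono t s (by omega) (by omega)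
      have h7 := hcmono s (s + 1) (by omega) (by omega)
      have h8 := hcmono (s + 1) u h2 h3
      omega
  have hge : ∀ s, s < 2 * M + 3 → h 0 + s ≤ h s := by
    intro s
    induction s with
    | zero => intro _; exact le_rfl
    | succ s ih =>
      intro hs
      have := ih (by omega)
      have := hmono s (s + 1) (by omega) hs
      omega
  have hlast : h (2 * M + 2) < 2 * N + 3 := by
    rcases comp_dist hk (call (2 * M + 2) (by omega)).symm with h1 | h1
    · exact h1
    · have := hge (2 * M + 2) (by omega)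
      omega
  have hall : ∀ s, s < 2 * M + 3 → h s < 2 * N + 3 := by
    intro s hs
    by_cases h1 : s < 2 * M + 2
    · exact (hmono s (2 * M + 2) h1 (by omega)).trans hlast
    · have : s = 2 * M + 2 := by omega
      rw [this]; exact hlast
  have trY : ∀ t u, t < u → u < 2 * M + 3 → Y (X M u) < Y (X M t) →
      Y (X N (h u)) < Y (X N (h t)) := by
    intro t u htu hu hlt
    have := tr t u htu hu hlt
    unfold W at this
    rwa [if_pos (hall u hu), if_pos (hall t (htu.trans hu))] at this
  have d3 := degree hN (hall 3 (by omega)) (hmono 0 1 (by omega) (by omega))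
    (hmono 1 2 (by omega) (by omega)) (hmono 2 3 (by omega) (by omega))
    (trY 0 3 (by omega) (by omega) e1) (trY 1 3 (by omega) (by omega) e2)
    (trY 2 3 (by omega) (by omega) e3)
  have dl := degree hN (hall (2 * M + 2) (by omega))
    (hmono (2 * M - 2) (2 * M) (by omega) (by omega))
    (hmono (2 * M) (2 * M + 1) (by omega) (by omega))
    (hmono (2 * M + 1) (2 * M + 2) (by omega) (by omega))
    (trY (2 * M - 2) (2 * M + 2) (by omega) (by omega) e4)
    (trY (2 * M) (2 * M + 2) (by omega) (by omega) e5)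
    (trY (2 * M + 1) (2 * M + 2) (by omega) (by omega) e6)
  have hlt := hmono 3 (2 * M + 2) (by omega) (by omega)
  have h3 : h 3 = 3 := by omega
  have hl : h (2 * M + 2) = 2 * N + 2 := by omega
  have lab : ∀ t u, t < u → u < 2 * M + 3 → Y (X M u) < Y (X M t) →
      L N (h t) ≤ L N (h u) + 1 ∧ L N (h u) ≤ L N (h t) + 1 := fun t u htu hu hlt =>
    label_step hN (hmono t u htu hu) (hall u hu) (trY t u htu hu hlt)
  have hL : ∀ j, j + 1 < M → L N (h (2 * j + 3)) ≤ 2 * j + 1 := by
    intro j
    induction j with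
    | zero =>
      intro _
      have : L N (h 3) = 1 := by
        rw [h3]
        have : X N 3 = 6 := by unfold X; split_ifs <;> omega
        unfold L
        rw [this]; norm_num
      simp only [Nat.mul_zero, zero_add]
      omega
    | succ j ih =>
      intro hj
      have h1 := ih (by omega)
      have h2 := lab (2 * (j + 1)) (2 * (j + 1) + 1) (by omega) (by omega)
        (e7 (j + 1) (by omega) (by omega))
      have h4 := lab (2 * (j + 1)) (2 * (j + 1) + 3) (by omega) (by omega)
        (e8 (j + 1) (by omega) (by omega))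
      have h5 : 2 * (j + 1) + 1 = 2 * j + 3 := by ring
      rw [h5] at h2
      omega
  have h9 := hL (M - 2) (by omega)
  have h10 := lab (2 * (M - 1)) (2 * (M - 1) + 1) (by omega) (by omega)
        (e7 (M - 1) (by omega) (by omega))
  have h11 := lab (2 * M - 2) (2 * M + 2) (by omega) (by omega) e4
  have h12 : 2 * (M - 2) + 3 = 2 * (M - 1) + 1 := by omega
  have h13 : 2 * (M - 1) = 2 * M - 2 := by omega
  rw [h12] at h9
  rw [h13] at h10 h9
  have h14 : L N (h (2 * M + 2)) = 2 * N - 1 := by
    rw [hl]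
    have : X N (2 * N + 2) = 4 * N + 2 := by unfold X; split_ifs <;> omega
    unfold L
    rw [this]
    split_ifs <;> omega
  omega

end Pool.Agent.Q285.Anti
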