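import Mathlib

set_option autoImplicit false

/-! Sums over `Equiv.Perm (Fin n)` as sums over lists. -/

namespace Pool.Agent.Q285.PermEnum

/-- one-line notation (zero based) -/
def word {n : ℕ} (σ : Equiv.Perm (Fin n)) : List ℕ := List.ofFn (fun i => (σ i : ℕ))

lemma word_injective (n : ℕ) : Function.Injective (word (n := n)) := by
  intro σ τ h
  have := List.ofFn_injective h
  ext i
  exact congrFun this i

lemma word_perm {n : ℕ} (σ : Equiv.Perm (Fin n)) : (word σ).Perm (List.range n) := by
  rw [List.perm_ext_iff_of_nodup]
  · intro a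
    simp only [word, List.mem_ofFn, List.mem_range]
    constructor
    · rintro ⟨i, rfl⟩; exact (σ i).2
    · intro ha; exact ⟨σ.symm ⟨a, ha⟩, by simp⟩
  · rw [word, List.nodup_ofFn]
    intro i j h
    exact σ.injective (Fin.ext h)
  · exact List.nodup_range

lemma exists_word {n : ℕ} {l : List ℕ} (h : l.Perm (List.range n)) :
    ∃ σ : Equiv.Perm (Fin n), word σ = l := by
  have hlen : l.length = n := by rw [h.length_eq, List.length_range]
  have hnd : l.Nodup := h.symm.nodup List.nodup_range
  have hlt : ∀ a ∈ l, a < n := fun a ha => List.mem_range.1 (h.mem_iff.1 ha)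
  let f : Fin n → Fin n := fun i => ⟨l[(i : ℕ)]'(by rw [hlen]; exact i.2), hlt _ (List.getElem_mem _)⟩
  have hf : Function.Injective f := by
    intro i j hij
    have := congrArg Fin.val hij
    simp only [f] at this
    exact Fin.ext ((List.Nodup.getElem_inj_iff hnd).1 this)
  refine ⟨Equiv.ofBijective f (Finite.injective_iff_bijective.1 hf), ?_⟩
  apply List.ext_getElem
  · simp [word, hlen]
  · intro i h1 h2
    simp [word, f]

lemma nodup_permutations'_range (n : ℕ) : (List.range n).permutations'.Nodup := by
  exact (List.permutations_perm_permutations' _).nodup_iff.1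
    (List.nodup_permutations _ List.nodup_range)

theorem sum_word {M : Type*} [AddCommMonoid M] (n : ℕ) (F : List ℕ → M) :
    ∑ σ : Equiv.Perm (Fin n), F (word σ) = ((List.range n).permutations'.map F).sum := by
  classical
  rw [← List.sum_toFinset F (nodup_permutations'_range n)]
  have : (List.range n).permutations'.toFinset =
      (Finset.univ : Finset (Equiv.Perm (Fin n))).image word := by
    ext l
    simp only [List.mem_toFinset, List.mem_permutations', Finset.mem_image, Finset.mem_univ,
      true_and]
    constructor
    · intro h; exact exists_word h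
    · rintro ⟨σ, rfl⟩; exact word_perm σ
  rw [this, Finset.sum_image]
  intro σ _ τ _ h
  exact word_injective n h

/-- inversions of a list -/
def invL : List ℕ → ℕ
  | [] => 0
  | a :: l => l.countP (fun b => decide (b < a)) + invL l

lemma countP_ofFn {n : ℕ} (f : Fin n → ℕ) (p : ℕ → Bool) :
    (List.ofFn f).countP p = ((Finset.univ : Finset (Fin n)).filter (fun i => p (f i) = true)).card := by
  induction n with
  | zero => simp
  | succ n ih =>
    rw [List.ofFn_succ, List.countP_cons, ih (fun i => f i.succ), Finset.card_filter,
      Finset.card_filter, Fin.sum_univ_succ, add_comm]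

/-- inversions of a function on `Fin n` -/
def invF {n : ℕ} (f : Fin n → ℕ) : ℕ :=
  ((Finset.univ : Finset (Fin n × Fin n)).filter (fun p => p.1 < p.2 ∧ f p.2 < f p.1)).card

lemma invF_eq {n : ℕ} (f : Fin n → ℕ) : invF f = ∑ i : Fin n, ∑ j : Fin n,
    if i < j ∧ f j < f i then 1 else 0 := by
  unfold invF
  rw [Finset.card_filter, ← Finset.univ_product_univ, Finset.sum_product]

lemma invL_ofFn {n : ℕ} (f : Fin n → ℕ) : invL (List.ofFn f) = invF f := by
  induction n with
  | zero => simp [invL, invF_eq]
  | succ n ih =>
    rw [List.ofFn_succ, invL, ih (fun i => f i.succ), invF_eq, invF_eq, Fin.sum_univ_succ,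
      countP_ofFn, Finset.card_filter]
    congr 1
    · rw [Fin.sum_univ_succ]
      simp [Fin.succ_pos]
    · refine Finset.sum_congr rfl fun i _ => ?_
      rw [Fin.sum_univ_succ]
      simp

end Pool.Agent.Q285.PermEnum
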