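import Mathlib
import Pool.Agent.Q285.PermEnum

set_option autoImplicit false

/-! Deciding pattern containment on words. -/

namespace Pool.Agent.Q285.Contain

open Pool.Agent.Q285.PermEnum

/-- permutations of all lengths -/
abbrev PP := Σ n : ℕ, Equiv.Perm (Fin n)

/-- `Le a b`: the permutation `a` is contained in `b` -/
def Le (a b : PP) : Prop :=
  ∃ f : Fin a.1 → Fin b.1, StrictMono f ∧ ∀ i j, a.2 i < a.2 j ↔ b.2 (f i) < b.2 (f j)

/-- the word of a permutation -/
def wd (a : PP) : List ℕ := word a.2

lemma wd_length (a : PP) : (wd a).length = a.1 := by simp [wd, word]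

lemma wd_inj {a b : PP} (h : wd a = wd b) : a = b := by
  obtain ⟨n, σ⟩ := a
  obtain ⟨m, τ⟩ := b
  have h1 := congrArg List.length h
  rw [wd_length, wd_length] at h1
  simp only at h1
  subst h1
  have h2 : σ = τ := word_injective n h
  rw [h2]

/-- order isomorphism test -/
def isoB (s p : List ℕ) : Bool := decide ((s.zip p).Pairwise (fun x y => (x.1 < y.1 ↔ x.2 < y.2)))

/-- containment test -/
def cont (l p : List ℕ) : Bool := (l.sublistsLen p.length).any (fun s => isoB s p)

lemma isoB_iff {s p : List ℕ} (h : s.length = p.length) : isoB s p = true ↔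
    ∀ (i j : ℕ) (hi : i < s.length) (hj : j < s.length), i < j →
      (s[i] < s[j] ↔ p[i] < p[j]) := by
  unfold isoB
  rw [decide_eq_true_iff, List.pairwise_iff_getElem]
  have hl : (s.zip p).length = s.length := by rw [List.length_zip, h, min_self]
  constructor
  · intro H i j hi hj hij
    have := H i j (by rw [hl]; exact hi) (by rw [hl]; exact hj) hij
    simpa using this
  · intro H i j hi hj hij
    have := H i j (by rw [hl] at hi; exact hi) (by rw [hl] at hj; exact hj) hij
    simpa using this

lemma le_iff (a b : PP) : Le a b ↔ cont (wd b) (wd a) = true := by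
  obtain ⟨k, σ⟩ := a
  obtain ⟨n, τ⟩ := b
  have hwb : wd ⟨n, τ⟩ = (List.finRange n).map (fun i => (τ i : ℕ)) := by
    simp only [wd, word]
    rw [List.ofFn_eq_map]
  unfold cont
  rw [List.any_eq_true]
  constructor
  · rintro ⟨f, hf, hord⟩
    simp only at f hf hord
    refine ⟨(List.ofFn f).map (fun i => (τ i : ℕ)), ?_, ?_⟩
    · rw [List.mem_sublistsLen]
      refine ⟨?_, by rw [wd_length]; simp⟩
      rw [hwb]
      apply List.Sublist.map
      apply List.sublist_of_subperm_of_pairwise (r := (· < ·))
      · apply List.subperm_of_subset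
        · rw [List.nodup_ofFn]; exact hf.injective
        · intro x _; exact List.mem_finRange x
      · rw [List.pairwise_ofFn]
        intro i j hij; exact hf hij
      · exact List.pairwise_lt_finRange n
    · rw [isoB_iff (by rw [wd_length]; simp)]
      intro i j hi hj hij
      simp only [wd, word, List.getElem_map, List.getElem_ofFn]
      have := hord ⟨i, by simpa using hi⟩ ⟨j, by simpa using hj⟩
      rw [Fin.lt_def, Fin.lt_def] at this
      exact this.symm
  · rintro ⟨s, hs, hiso⟩
    rw [List.mem_sublistsLen, hwb, List.sublist_map_iff] at hs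
    obtain ⟨⟨l, hl, rfl⟩, hlen⟩ := hs
    rw [isoB_iff hlen] at hiso
    rw [wd_length] at hlen
    simp only [List.length_map] at hlen hiso
    have hsort : l.Pairwise (· < ·) := (List.pairwise_lt_finRange n).sublist hl
    rw [List.pairwise_iff_getElem] at hsort
    have hk : ∀ i : Fin k, (i : ℕ) < l.length := fun i => by rw [hlen]; exact i.2
    refine ⟨fun i => l[(i : ℕ)]'(hk i), ?_, ?_⟩
    · intro i j hij
      exact hsort i j (hk i) (hk j) hij
    · have key : ∀ i j : Fin k, i < j → (σ i < σ j ↔ τ (l[(i : ℕ)]'(hk i)) < τ (l[(j : ℕ)]'(hk j))) := by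
        intro i j hij
        have := hiso i j (hk i) (hk j) hij
        simp only [wd, word, List.getElem_map, List.getElem_ofFn] at this
        rw [Fin.lt_def, Fin.lt_def]
        exact this.symm
      intro i j
      simp only
      rcases lt_trichotomy i j with h | h | h
      · exact key i j h
      · subst h; simp
      · have h1 := key j i h
        have h2 : σ i ≠ σ j := fun h' => h.ne' (σ.injective h')
        have h3 : τ (l[(i : ℕ)]'(hk i)) ≠ τ (l[(j : ℕ)]'(hk j)) := fun h' =>
          (hsort j i (hk j) (hk i) h).ne' (τ.injective h')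
        constructor
        · intro h4
          by_contra h5
          have h6 := lt_of_le_of_ne (not_lt.1 h5) h3.symm
          exact absurd (h1.2 h6) (not_lt.2 h4.le)
        · intro h4
          by_contra h5
          have h6 := lt_of_le_of_ne (not_lt.1 h5) h2.symm
          exact absurd (h1.1 h6) (not_lt.2 h4.le)

lemma Le.length_le {a b : PP} (h : Le a b) : a.1 ≤ b.1 := by
  obtain ⟨f, hf, -⟩ := h
  have := Fintype.card_le_of_injective f hf.injective
  simpa using this

lemma Le.trans {a b c : PP} (h : Le a b) (h' : Le b c) : Le a c := by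
  obtain ⟨f, hf, h1⟩ := h
  obtain ⟨g, hg, h2⟩ := h'
  exact ⟨g ∘ f, hg.comp hf, fun i j => (h1 i j).trans (h2 _ _)⟩

end Pool.Agent.Q285.Contain
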