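import Mathlib
import Pool.Agent.Q285.Contain

set_option autoImplicit false

/-! The Moebius function of the pattern poset and its evaluation on words. -/

namespace Pool.Agent.Q285.Moebius

open Pool.Agent.Q285.PermEnum Pool.Agent.Q285.Contain

open Classical in
/-- The Moebius function `μ(s, p)` of the pattern poset, for `p` of length `n`: it is `1` if
`s = p`, it is minus the sum of `μ(s, t)` over all `t` with `s ≤ t ≤ p` of smaller length than `p`
(these are exactly the `t` with `s ≤ t < p`) if `s < p`, and `0` if `s` is not contained in `p`. -/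
noncomputable def mu (s : PP) (n : ℕ) (p : Equiv.Perm (Fin n)) : ℤ :=
  if s = ⟨n, p⟩ then 1
  else if Le s ⟨n, p⟩ then
    - ∑ m : Fin n, ∑ t : Equiv.Perm (Fin m),
        if Le s ⟨m, t⟩ ∧ Le ⟨m, t⟩ ⟨n, p⟩ then mu s m t else 0
  else 0
termination_by n
decreasing_by exact m.2

/-- the recursion on words -/
def recW (s w : List ℕ) (V : List ℕ → ℤ) : ℤ :=
  if w = s then 1
  else if cont w s = true then
    - ((List.range w.length).map (fun m => ((List.range m).permutations'.map
        (fun u => if cont w u = true then (if cont u s = true then V u else 0) else 0)).sum)).sum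
  else 0

theorem mu_eq (s p : PP) (V : List ℕ → ℤ)
    (H : ∀ m ∈ List.range (p.1 + 1), ∀ w ∈ (List.range m).permutations', cont (wd p) w = true →
      recW (wd s) w V = V w) :
    ∀ (m : ℕ) (t : Equiv.Perm (Fin m)), Le ⟨m, t⟩ p → mu s m t = V (word t) := by
  intro m
  induction m using Nat.strong_induction_on with
  | _ m ih =>
    intro t ht
    have hlen : m ≤ p.1 := ht.length_le
    have hw := H m (List.mem_range.2 (by omega)) (word t)
      (List.mem_permutations'.2 (word_perm t)) ((le_iff _ _).1 ht)
    rw [← hw, mu, recW]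
    have e1 : (s = ⟨m, t⟩) ↔ (word t = wd s) := by
      constructor
      · intro h; rw [h]; rfl
      · intro h; exact wd_inj h.symm
    by_cases h1 : s = ⟨m, t⟩
    · rw [if_pos h1, if_pos (e1.1 h1)]
    rw [if_neg h1, if_neg (fun h => h1 (e1.2 h))]
    have e2 : Le s ⟨m, t⟩ ↔ cont (word t) (wd s) = true := le_iff s ⟨m, t⟩
    by_cases h2 : Le s ⟨m, t⟩
    · rw [if_pos h2, if_pos (e2.1 h2)]
      congr 1
      have hl : (word t).length = m := by simp [word]
      rw [hl, ← List.sum_toFinset _ List.nodup_range, List.toFinset_range, Finset.sum_range]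
      refine Finset.sum_congr rfl fun m' _ => ?_
      rw [← sum_word]
      refine Finset.sum_congr rfl fun t' _ => ?_
      have e3 : Le s ⟨m', t'⟩ ↔ cont (word t') (wd s) = true := le_iff s ⟨m', t'⟩
      have e4 : Le ⟨m', t'⟩ ⟨m, t⟩ ↔ cont (word t) (word t') = true := le_iff ⟨m', t'⟩ ⟨m, t⟩
      by_cases h4 : Le (⟨m', t'⟩ : PP) ⟨m, t⟩
      · rw [if_pos (e4.1 h4)]
        by_cases h3 : Le s ⟨m', t'⟩
        · rw [if_pos ⟨h3, h4⟩, if_pos (e3.1 h3)]
          exact ih m' m'.2 t' (h4.trans ht)
        · rw [if_neg (fun h => h3 h.1), if_neg (fun h => h3 (e3.2 h))]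
      · rw [if_neg (fun h => h4 h.2), if_neg (fun h => h4 (e4.2 h))]
    · rw [if_neg h2, if_neg (fun h => h2 (e2.2 h))]

end Pool.Agent.Q285.Moebius
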