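import Mathlib
import Pool.Agent.Q285.PermEnum

set_option autoImplicit false

/-! 2143-avoiding linear extensions of rectangular posets: recursion for the inversion
generating function. -/

namespace Pool.Agent.Q285.RectLE

open Finset Pool.Agent.Q285.PermEnum

/-- `x ≼ y` in `EN_{s,t}` (zero based labels) -/
def EN (t x y : ℕ) : Prop := x % t ≤ y % t ∧ y / t ≤ x / t

/-- `π` is a linear extension of `EN_{s,t}` -/
def LinExt (t : ℕ) {n : ℕ} (π : Equiv.Perm (Fin n)) : Prop :=
  ∀ i j : Fin n, EN t (π i) (π j) → i ≤ j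

/-- `π` avoids 2143 -/
def Avoids2143 {n : ℕ} (π : Equiv.Perm (Fin n)) : Prop :=
  ¬ ∃ i j k l : Fin n, i < j ∧ j < k ∧ k < l ∧ π j < π i ∧ π i < π l ∧ π l < π k

/-- number of inversions -/
def inv {n : ℕ} (π : Equiv.Perm (Fin n)) : ℕ :=
  (univ.filter (fun p : Fin n × Fin n => p.1 < p.2 ∧ π p.2 < π p.1)).card

open Classical in
/-- the inversion generating function of the 2143-avoiding linear extensions of `EN_{s,t}` -/
noncomputable def gen {K : Type*} [CommSemiring K] (s t : ℕ) (q : K) : K :=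
  ∑ π : Equiv.Perm (Fin (s * t)) with LinExt t π ∧ Avoids2143 π, q ^ inv π

/-- `a` may be placed before `b` -/
def R (t a b : ℕ) : Prop :=
  b / t < a / t ∨ (b / t = a / t ∧ a % t < b % t) ∨ (b / t = a / t + 1 ∧ a % t < b % t)

/-- the lists of the elements of `U` -/
def lst (U : Finset ℕ) : Finset (List ℕ) := U.val.lists.toFinset

lemma mem_lst {U : Finset ℕ} {l : List ℕ} : l ∈ lst U ↔ U.val = (l : Multiset ℕ) := by
  unfold lst
  rw [Multiset.mem_toFinset, Multiset.mem_lists_iff]
  rfl

open Classical in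
/-- the generating function of the lists of elements of `U` -/
noncomputable def W {K : Type*} [CommSemiring K] (t : ℕ) (q : K) (U : Finset ℕ) : K :=
  ∑ l ∈ lst U with l.Pairwise (R t), q ^ invL l

section

variable {K : Type*} [CommSemiring K] (t : ℕ) (q : K)

open Classical in
lemma W_empty : W t q ∅ = 1 := by
  unfold W
  have : ((lst ∅).filter (fun l => l.Pairwise (R t))) = {[]} := by
    ext l
    simp only [mem_filter, mem_lst, mem_singleton, empty_val]
    constructor
    · rintro ⟨h, -⟩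
      exact (Multiset.coe_eq_zero l).1 h.symm
    · rintro rfl
      exact ⟨rfl, List.Pairwise.nil⟩
  rw [this, sum_singleton]
  simp [invL]

lemma countP_val (U : Finset ℕ) (l : List ℕ) (h : U.val = (l : Multiset ℕ)) (p : ℕ → Prop)
    [DecidablePred p] : l.countP (fun b => decide (p b)) = (U.filter p).card := by
  rw [← Multiset.coe_countP, ← h]
  rw [Finset.card_def, Finset.filter_val, Multiset.countP_eq_card_filter]

open Classical in
lemma W_rec (U : Finset ℕ) (hU : U.Nonempty) : W t q U =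
    ∑ a ∈ U, if (∀ b ∈ U.erase a, R t a b) then
      q ^ ((U.erase a).filter (· < a)).card * W t q (U.erase a) else 0 := by
  unfold W
  rw [← Finset.sum_filter]
  simp_rw [Finset.mul_sum, ← pow_add]
  rw [Finset.sum_sigma']
  refine Finset.sum_bij' (fun l _ => ⟨l.headI, l.tail⟩) (fun p _ => p.1 :: p.2) ?_ ?_ ?_ ?_ ?_
  · intro l hl
    simp only [mem_filter, mem_lst] at hl
    obtain ⟨h1, h2⟩ := hl
    rcases l with _ | ⟨a, l⟩
    · exfalso
      rw [Multiset.coe_nil, Finset.val_eq_zero] at h1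
      exact hU.ne_empty h1
    · have ha : a ∈ U := by
        rw [← Finset.mem_val, h1]; simp
      have he : (U.erase a).val = (l : Multiset ℕ) := by
        rw [Finset.erase_val, h1]; simp
      rw [List.pairwise_cons] at h2
      simp only [mem_sigma, mem_filter, mem_lst, List.headI_cons, List.tail_cons]
      refine ⟨⟨ha, fun b hb => h2.1 b ?_⟩, he, h2.2⟩
      rw [← Finset.mem_val, he] at hb
      simpa using hb
  · rintro ⟨a, l⟩ hp
    simp only [mem_sigma, mem_filter, mem_lst] at hp ⊢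
    obtain ⟨⟨ha, h1⟩, h2, h3⟩ := hp
    refine ⟨?_, ?_⟩
    · rw [← Multiset.cons_coe, ← h2, Finset.erase_val, Multiset.cons_erase ha]
    · rw [List.pairwise_cons]
      refine ⟨fun b hb => h1 b ?_, h3⟩
      rw [← Finset.mem_val, h2]
      simpa using hb
  · intro l hl
    simp only [mem_filter, mem_lst] at hl
    rcases l with _ | ⟨a, l⟩
    · exfalso
      obtain ⟨h1, h2⟩ := hl
      rw [Multiset.coe_nil, Finset.val_eq_zero] at h1
      exact hU.ne_empty h1
    · rfl
  · rintro ⟨a, l⟩ hp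
    rfl
  · intro l hl
    simp only [mem_filter, mem_lst] at hl
    obtain ⟨h1, h2⟩ := hl
    rcases l with _ | ⟨a, l⟩
    · exfalso
      rw [Multiset.coe_nil, Finset.val_eq_zero] at h1
      exact hU.ne_empty h1
    · have he : (U.erase a).val = (l : Multiset ℕ) := by
        rw [Finset.erase_val, h1]; simp
      simp only [List.headI_cons, List.tail_cons]
      have key : ∀ D1 D2 : DecidablePred (fun x : ℕ => x < a),
          (@Finset.filter _ _ D1 (U.erase a)).card = (@Finset.filter _ _ D2 (U.erase a)).card := by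
        intro D1 D2
        have : D1 = D2 := Subsingleton.elim _ _
        rw [this]
      rw [invL, countP_val (U.erase a) l he (· < a)]
      try exact congrArg (fun k => q ^ (k + invL l)) (key _ _)

end

/-- the states: `s + 1` columns, the first `i` elements of the first column (largest labels) and
the first `j` of the second one being removed -/
def S (t s i j : ℕ) : Finset ℕ :=
  (range ((s + 1) * t)).filter
    (fun v => ¬ (v / t = s ∧ v % t < i) ∧ ¬ (v / t + 1 = s ∧ v % t < j))

lemma mem_S {t s i j v : ℕ} (ht : 0 < t) : v ∈ S t s i j ↔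
    v / t < s + 1 ∧ ¬ (v / t = s ∧ v % t < i) ∧ ¬ (v / t + 1 = s ∧ v % t < j) := by
  unfold S
  rw [mem_filter, mem_range, Nat.div_lt_iff_lt_mul ht]

lemma dm {t a i : ℕ} (hi : i < t) : (a * t + i) / t = a ∧ (a * t + i) % t = i := by
  have ht : 0 < t := by omega
  constructor
  · rw [mul_comm, Nat.mul_add_div ht, Nat.div_eq_of_lt hi, add_zero]
  · rw [mul_comm, Nat.mul_add_mod, Nat.mod_eq_of_lt hi]

lemma eq_dm {t v w : ℕ} (h1 : v / t = w / t) (h2 : v % t = w % t) : v = w := by
  rw [← Nat.div_add_mod v t, ← Nat.div_add_mod w t, h1, h2]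

lemma lt_dm {t v w : ℕ} (ht : 0 < t) :
    v < w ↔ v / t < w / t ∨ (v / t = w / t ∧ v % t < w % t) := by
  have hv := Nat.div_add_mod v t
  have hw := Nat.div_add_mod w t
  have hv' := Nat.mod_lt v ht
  have hw' := Nat.mod_lt w ht
  constructor
  · intro h
    rcases lt_or_eq_of_le (Nat.div_le_div_right (c := t) h.le) with h1 | h1
    · exact Or.inl h1
    · right
      refine ⟨h1, ?_⟩
      rw [h1] at hv
      omega
  · rintro (h | ⟨h1, h2⟩)
    · have : t * (v / t + 1) ≤ t * (w / t) := Nat.mul_le_mul_left t h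
      rw [mul_add, mul_one] at this
      omega
    · rw [h1] at hv
      omega

lemma S_erase_top {t s i j : ℕ} (hi : i < t) : (S t s i j).erase (s * t + i) = S t s (i + 1) j := by
  have ht : 0 < t := by omega
  obtain ⟨h1, h2⟩ := dm (a := s) hi
  ext v
  rw [mem_erase, mem_S ht, mem_S ht]
  constructor
  · rintro ⟨hne, h3, h4, h5⟩
    refine ⟨h3, fun h => h4 ⟨h.1, ?_⟩, h5⟩
    rcases Nat.lt_succ_iff_lt_or_eq.1 h.2 with h6 | h6
    · exact h6
    · exact absurd (eq_dm (h.1.trans h1.symm) (h6.trans h2.symm)) hne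
  · rintro ⟨h3, h4, h5⟩
    refine ⟨fun h => h4 ?_, h3, fun h => h4 ⟨h.1, by omega⟩, h5⟩
    rw [h, h1, h2]
    exact ⟨rfl, Nat.lt_succ_self i⟩

lemma S_erase_snd {t s i j : ℕ} (hj : j < t) :
    (S t (s + 1) i j).erase (s * t + j) = S t (s + 1) i (j + 1) := by
  have ht : 0 < t := by omega
  obtain ⟨h1, h2⟩ := dm (a := s) hj
  ext v
  rw [mem_erase, mem_S ht, mem_S ht]
  constructor
  · rintro ⟨hne, h3, h4, h5⟩
    refine ⟨h3, h4, fun h => h5 ⟨h.1, ?_⟩⟩
    rcases Nat.lt_succ_iff_lt_or_eq.1 h.2 with h6 | h6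
    · exact h6
    · exact absurd (eq_dm ((by omega : v / t = s).trans h1.symm) (h6.trans h2.symm)) hne
  · rintro ⟨h3, h4, h5⟩
    refine ⟨fun h => h5 ?_, h3, h4, fun h => h5 ⟨h.1, by omega⟩⟩
    rw [h, h1, h2]
    exact ⟨rfl, Nat.lt_succ_self j⟩

lemma S_full {t s j : ℕ} (ht : 0 < t) : S t (s + 1) t j = S t s j 0 := by
  ext v
  rw [mem_S ht, mem_S ht]
  have := Nat.mod_lt v ht
  constructor
  · rintro ⟨h1, h2, h3⟩
    refine ⟨?_, fun h => h3 ⟨by omega, h.2⟩, by omega⟩
    by_contra h4
    exact h2 ⟨by omega, this⟩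
  · rintro ⟨h1, h2, h3⟩
    exact ⟨by omega, by omega, fun h => h2 ⟨by omega, h.2⟩⟩

lemma S_zero_full {t : ℕ} (ht : 0 < t) : S t 0 t 0 = ∅ := by
  ext v
  rw [mem_S ht]
  have := Nat.mod_lt v ht
  simp only [notMem_empty, iff_false]
  rintro ⟨h1, h2, -⟩
  exact h2 ⟨Nat.lt_one_iff.1 h1, this⟩

lemma R_irrefl_first {t s i j a : ℕ} (hi : i < t) (ha : a ∈ S t s i j)
    (h : ∀ b ∈ (S t s i j).erase a, R t a b) :
    a = s * t + i ∨ (j < i ∧ a / t + 1 = s ∧ a % t = j) := by
  have ht : 0 < t := by omega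
  obtain ⟨h1, h2⟩ := dm (a := s) hi
  have ha' := (mem_S ht).1 ha
  by_cases he : a = s * t + i
  · exact Or.inl he
  right
  have htop : s * t + i ∈ (S t s i j).erase a := by
    rw [mem_erase, mem_S ht, h1, h2]
    exact ⟨fun h => he h.symm, by omega, by omega, by omega⟩
  have h3 := h _ htop
  unfold R at h3
  rw [h1, h2] at h3
  have h4 : a / t + 1 = s ∧ a % t < i := by
    rcases h3 with h3 | h3 | h3
    · omega
    · exact absurd ⟨h3.1.symm, h3.2⟩ ha'.2.1
    · exact ⟨h3.1.symm, h3.2⟩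
  have h5 : j ≤ a % t := by
    by_contra h5
    exact ha'.2.2 ⟨h4.1, by omega⟩
  have hj : j < t := by omega
  have h6 : a % t = j := by
    by_contra h6
    obtain ⟨k1, k2⟩ := dm (a := a / t) hj
    have h7 : a / t * t + j ∈ (S t s i j).erase a := by
      rw [mem_erase, mem_S ht, k1, k2]
      refine ⟨fun h => h6 ?_, by omega, by omega, by omega⟩
      rw [← h, k2]
    have h8 := h _ h7
    unfold R at h8
    rw [k1, k2] at h8
    omega
  exact ⟨by omega, h4.1, h6⟩

lemma R_top {t s i j : ℕ} (hi : i < t) : ∀ b ∈ (S t s i j).erase (s * t + i), R t (s * t + i) b := by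
  have ht : 0 < t := by omega
  obtain ⟨h1, h2⟩ := dm (a := s) hi
  intro b hb
  rw [S_erase_top hi, mem_S ht] at hb
  unfold R
  rw [h1, h2]
  omega

lemma R_snd {t s i j : ℕ} (hj : j < i) (hi : i < t) :
    ∀ b ∈ (S t (s + 1) i j).erase (s * t + j), R t (s * t + j) b := by
  have ht : 0 < t := by omega
  obtain ⟨h1, h2⟩ := dm (a := s) (hj.trans hi)
  intro b hb
  rw [S_erase_snd (hj.trans hi), mem_S ht] at hb
  unfold R
  rw [h1, h2]
  omega

lemma card_top {t s i j : ℕ} (hi : i < t) (hj : j ≤ t) :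
    (((S t (s + 1) i j).erase ((s + 1) * t + i)).filter (· < (s + 1) * t + i)).card =
      (s + 1) * t - j := by
  have ht : 0 < t := by omega
  obtain ⟨h1, h2⟩ := dm (a := s + 1) hi
  have : ((S t (s + 1) i j).erase ((s + 1) * t + i)).filter (· < (s + 1) * t + i) =
      range ((s + 1) * t) \ Ico (s * t) (s * t + j) := by
    ext v
    have hlt : v < (s + 1) * t + i ↔ v / t < s + 1 ∨ (v / t = s + 1 ∧ v % t < i) := by
      rw [lt_dm ht, h1, h2]
    have hr : v < (s + 1) * t ↔ v / t < s + 1 := (Nat.div_lt_iff_lt_mul ht).symm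
    rw [mem_filter, S_erase_top hi, mem_S ht, mem_sdiff, mem_range, mem_Ico, hlt, hr]
    have hv := Nat.div_add_mod v t
    have key : (s * t ≤ v ∧ v < s * t + j) ↔ (v / t = s ∧ v % t < j) := by
      constructor
      · rintro ⟨h3, h4⟩
        have h5 : v / t = s := by
          apply Nat.div_eq_of_lt_le h3
          rw [add_mul, one_mul]
          omega
        refine ⟨h5, ?_⟩
        rw [h5, mul_comm] at hv
        omega
      · rintro ⟨h3, h4⟩
        rw [h3, mul_comm] at hv
        omega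
    rw [key]
    constructor
    · rintro ⟨⟨h3, h4, h5⟩, h6⟩
      have h7 : v / t < s + 1 := by
        rcases h6 with h6 | h6
        · exact h6
        · exact absurd ⟨h6.1, by omega⟩ h4
      exact ⟨h7, fun h => h5 ⟨by omega, h.2⟩⟩
    · rintro ⟨h3, h4⟩
      exact ⟨⟨by omega, by omega, fun h => h4 ⟨by omega, h.2⟩⟩, Or.inl h3⟩
  rw [this, card_sdiff_of_subset, card_range, Nat.card_Ico]
  · congr 1
    omega
  · intro v hv
    rw [mem_Ico] at hv
    rw [mem_range, add_mul, one_mul]
    omega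

lemma card_snd {t s i j : ℕ} (hj : j < i) (hi : i < t) :
    (((S t (s + 1) i j).erase (s * t + j)).filter (· < s * t + j)).card = s * t := by
  have ht : 0 < t := by omega
  obtain ⟨h1, h2⟩ := dm (a := s) (hj.trans hi)
  have : ((S t (s + 1) i j).erase (s * t + j)).filter (· < s * t + j) = range (s * t) := by
    ext v
    have hlt : v < s * t + j ↔ v / t < s ∨ (v / t = s ∧ v % t < j) := by
      rw [lt_dm ht, h1, h2]
    have hr : v < s * t ↔ v / t < s := (Nat.div_lt_iff_lt_mul ht).symm
    rw [mem_filter, S_erase_snd (hj.trans hi), mem_S ht, mem_range, hlt, hr]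
    generalize v / t = x
    generalize v % t = y
    omega
  rw [this, card_range]

section

variable {K : Type*} [CommSemiring K] (q : K)

open Classical in
/-- the recursion -/
theorem step {t s i j : ℕ} (hi : i < t) (hj : j ≤ t) : W t q (S t (s + 1) i j) =
    q ^ ((s + 1) * t - j) * W t q (S t (s + 1) (i + 1) j) +
      if j < i then q ^ (s * t) * W t q (S t (s + 1) i (j + 1)) else 0 := by
  have ht : 0 < t := by omega
  obtain ⟨h1, h2⟩ := dm (a := s + 1) hi
  have hmem : (s + 1) * t + i ∈ S t (s + 1) i j := by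
    rw [mem_S ht, h1, h2]; omega
  rw [W_rec t q _ ⟨_, hmem⟩, ← Finset.add_sum_erase _ _ hmem, if_pos (R_top hi), card_top hi hj,
    S_erase_top hi]
  congr 1
  split_ifs with hji
  · obtain ⟨h3, h4⟩ := dm (a := s) (hji.trans hi)
    have hne : s * t + j ≠ (s + 1) * t + i := by
      intro h
      rw [h, h1] at h3
      omega
    have hmem2 : s * t + j ∈ S t (s + 1) (i + 1) j := by
      rw [mem_S ht, h3, h4]; omega
    rw [← Finset.add_sum_erase _ _ hmem2, if_pos (R_snd hji hi), card_snd hji hi,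
      S_erase_snd (hji.trans hi), Finset.sum_eq_zero, add_zero]
    intro a ha
    rw [if_neg]
    intro h
    rw [mem_erase] at ha
    have ha2 : a ∈ S t (s + 1) i j := by
      rw [← S_erase_top hi] at ha
      exact mem_of_mem_erase ha.2
    rcases R_irrefl_first hi ha2 h with h5 | ⟨-, h5, h6⟩
    · rw [h5, mem_S ht, h1, h2] at ha
      omega
    · exact ha.1 (eq_dm (t := t) (by rw [h3]; omega) (by rw [h4]; exact h6))
  · apply Finset.sum_eq_zero
    intro a ha
    rw [if_neg]
    intro h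
    have ha2 : a ∈ S t (s + 1) i j := by
      rw [← S_erase_top hi] at ha
      exact mem_of_mem_erase ha
    rcases R_irrefl_first hi ha2 h with h5 | ⟨h5, -⟩
    · rw [h5, mem_S ht, h1, h2] at ha
      omega
    · exact hji h5

open Classical in
theorem step0 {t i : ℕ} (hi : i < t) : W t q (S t 0 i 0) = W t q (S t 0 (i + 1) 0) := by
  have ht : 0 < t := by omega
  obtain ⟨h1, h2⟩ := dm (a := 0) hi
  have hmem : 0 * t + i ∈ S t 0 i 0 := by
    rw [mem_S ht, h1, h2]; omega
  rw [W_rec t q _ ⟨_, hmem⟩, ← Finset.add_sum_erase _ _ hmem, if_pos (R_top hi),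
    S_erase_top hi]
  have hc : ((S t 0 (i + 1) 0).filter (· < 0 * t + i)).card = 0 := by
    rw [card_eq_zero, filter_eq_empty_iff]
    intro v hv
    rw [mem_S ht] at hv
    rw [lt_dm ht, h1, h2]
    generalize v / t = x at *
    generalize v % t = y at *
    omega
  rw [hc, pow_zero, one_mul, Finset.sum_eq_zero, add_zero]
  intro a ha
  rw [if_neg]
  intro h
  have ha2 : a ∈ S t 0 i 0 := by
    rw [← S_erase_top hi] at ha
    exact mem_of_mem_erase ha
  rcases R_irrefl_first hi ha2 h with h5 | ⟨-, h5, -⟩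
  · rw [h5, mem_S ht, h1, h2] at ha
    omega
  · exact absurd h5 (Nat.succ_ne_zero _)

theorem base {t : ℕ} (ht : 0 < t) (i : ℕ) (hi : i ≤ t) : W t q (S t 0 i 0) = 1 := by
  obtain ⟨k, hk⟩ : ∃ k, i + k = t := ⟨t - i, by omega⟩
  induction k generalizing i with
  | zero =>
    obtain rfl : i = t := by omega
    rw [S_zero_full ht, W_empty]
  | succ k ih =>
    rw [step0 q (by omega), ih (i + 1) (by omega) (by omega)]

end

/-! ### Connection with permutations -/

lemma cond_iff {t n : ℕ} (ht : 0 < t) (π : Equiv.Perm (Fin n)) : LinExt t π ∧ Avoids2143 π ↔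
    (word π).Pairwise (R t) := by
  rw [word, List.pairwise_ofFn]
  constructor
  · rintro ⟨h1, h2⟩ i j hij
    by_contra hR
    have h3 : ¬ EN t (π j) (π i) := fun h => absurd (h1 j i h) (not_le.2 hij)
    unfold EN at h3
    unfold R at hR
    have h4 : ((π i : ℕ)) / t + 2 ≤ (π j : ℕ) / t ∧ (π i : ℕ) % t < (π j : ℕ) % t := by
      generalize (π i : ℕ) / t = a at *
      generalize (π j : ℕ) / t = b at *
      generalize (π i : ℕ) % t = c at *
      generalize (π j : ℕ) % t = d at *
      omega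
    obtain ⟨h4, h5⟩ := h4
    obtain ⟨x1, x2⟩ := dm (a := (π i : ℕ) / t + 1) (Nat.mod_lt (π i : ℕ) ht)
    obtain ⟨w1, w2⟩ := dm (a := (π j : ℕ) / t - 1) (Nat.mod_lt (π j : ℕ) ht)
    have hyx : (π i : ℕ) < ((π i : ℕ) / t + 1) * t + (π i : ℕ) % t := by
      rw [lt_dm ht, x1]; exact Or.inl (Nat.lt_succ_self _)
    have hxw : ((π i : ℕ) / t + 1) * t + (π i : ℕ) % t < ((π j : ℕ) / t - 1) * t + (π j : ℕ) % t := by
      rw [lt_dm ht, x1, x2, w1, w2]
      generalize (π i : ℕ) / t = a at *
      generalize (π j : ℕ) / t = b at *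
      generalize (π i : ℕ) % t = c at *
      generalize (π j : ℕ) % t = d at *
      omega
    have hwz : ((π j : ℕ) / t - 1) * t + (π j : ℕ) % t < (π j : ℕ) := by
      rw [lt_dm ht, w1]
      refine Or.inl ?_
      generalize (π i : ℕ) / t = a at *
      generalize (π j : ℕ) / t = b at *
      omega
    have hz := (π j).2
    obtain ⟨x, hx⟩ : ∃ x : Fin n, (x : ℕ) = ((π i : ℕ) / t + 1) * t + (π i : ℕ) % t :=
      ⟨⟨_, by omega⟩, rfl⟩
    obtain ⟨w, hw⟩ : ∃ x : Fin n, (x : ℕ) = ((π j : ℕ) / t - 1) * t + (π j : ℕ) % t :=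
      ⟨⟨_, by omega⟩, rfl⟩
    rw [← hx] at hyx hxw x1 x2
    rw [← hw] at hxw hwz w1 w2
    have e1 : π.symm x < i := by
      refine lt_of_le_of_ne (h1 _ _ ?_) ?_
      · rw [Equiv.apply_symm_apply]
        unfold EN
        rw [x1, x2]
        exact ⟨le_refl _, Nat.le_succ _⟩
      · intro h
        rw [← h, Equiv.apply_symm_apply] at hyx
        exact lt_irrefl _ hyx
    have e2 : j < π.symm w := by
      refine lt_of_le_of_ne (h1 _ _ ?_) ?_
      · rw [Equiv.apply_symm_apply]
        unfold EN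
        rw [w1, w2]
        exact ⟨le_refl _, Nat.sub_le _ _⟩
      · intro h
        rw [h, Equiv.apply_symm_apply] at hwz
        exact lt_irrefl _ hwz
    refine h2 ⟨π.symm x, i, j, π.symm w, e1, hij, e2, ?_, ?_, ?_⟩
    · rw [Equiv.apply_symm_apply]; exact hyx
    · rw [Equiv.apply_symm_apply, Equiv.apply_symm_apply]; exact hxw
    · rw [Equiv.apply_symm_apply]; exact hwz
  · intro h
    refine ⟨fun i j hij => ?_, ?_⟩
    · by_contra hc
      have h1 := h (not_le.1 hc)
      unfold R at h1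
      unfold EN at hij
      generalize (π i : ℕ) / t = a at *
      generalize (π j : ℕ) / t = b at *
      generalize (π i : ℕ) % t = c at *
      generalize (π j : ℕ) % t = d at *
      omega
    · rintro ⟨i, j, k, l, h1, h2, h3, h4, h5, h6⟩
      have g1 := h h1
      have g2 := h h2
      have g3 := h h3
      rw [Fin.lt_def, lt_dm ht] at h4 h5 h6
      unfold R at g1 g2 g3
      generalize (π i : ℕ) / t = a1 at *
      generalize (π j : ℕ) / t = b1 at *
      generalize (π i : ℕ) % t = c1 at *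
      generalize (π j : ℕ) % t = d1 at *
      generalize (π k : ℕ) / t = a2 at *
      generalize (π l : ℕ) / t = b2 at *
      generalize (π k : ℕ) % t = c2 at *
      generalize (π l : ℕ) % t = d2 at *
      omega

open Classical in
theorem gen_eq {K : Type*} [CommSemiring K] (s t : ℕ) (ht : 0 < t) (q : K) :
    gen s t q = W t q (range (s * t)) := by
  unfold gen W
  refine Finset.sum_bij (fun π _ => word π) ?_ ?_ ?_ ?_
  · intro π hπ
    rw [mem_filter] at hπ ⊢
    refine ⟨?_, (cond_iff ht π).1 hπ.2⟩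
    rw [mem_lst]
    exact (Multiset.coe_eq_coe.2 (word_perm π)).symm
  · intro π _ σ _ h
    exact word_injective _ h
  · intro l hl
    rw [mem_filter, mem_lst] at hl
    obtain ⟨π, hπ⟩ := exists_word (n := s * t) (l := l) (Multiset.coe_eq_coe.1 hl.1.symm)
    refine ⟨π, ?_, hπ⟩
    rw [mem_filter]
    refine ⟨mem_univ _, (cond_iff ht π).2 ?_⟩
    rw [hπ]
    exact hl.2
  · intro π _
    congr 1
    rw [word, invL_ofFn]
    unfold inv invF
    congr 1

lemma range_eq_S {t s : ℕ} (ht : 0 < t) : range ((s + 1) * t) = S t s 0 0 := by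
  ext v
  rw [mem_S ht, mem_range, ← Nat.div_lt_iff_lt_mul ht]
  omega

/-! ### Two rows -/

section

variable {K : Type*} [CommSemiring K] (q : K)

lemma two (m : ℕ) : W 2 q (S 2 m 1 0) = q ^ (m * (2 * m - 1)) * (1 + q) ^ m := by
  induction m with
  | zero => rw [base q (by norm_num) 1 (by norm_num)]; simp
  | succ m ih =>
    have h1 := step q (t := 2) (s := m) (i := 1) (j := 0) (by norm_num) (by norm_num)
    have h2 := step q (t := 2) (s := m) (i := 1) (j := 1) (by norm_num) (by norm_num)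
    rw [if_pos (by norm_num)] at h1
    rw [if_neg (by norm_num), add_zero] at h2
    norm_num at h1 h2
    rw [S_full (by norm_num)] at h1 h2
    rw [h1, h2, ih]
    have h3 : W 2 q (S 2 m 0 0) = q ^ (m * 2) * W 2 q (S 2 m 1 0) := by
      rcases m with _ | m
      · rw [step0 q (by norm_num)]; simp
      · have h4 := step q (t := 2) (s := m) (i := 0) (j := 0) (by norm_num) (by norm_num)
        rw [if_neg (by norm_num), add_zero] at h4
        exact h4
    rw [h3, ih]
    have e1 : (m + 1) * (2 * (m + 1) - 1) = m * (2 * m - 1) + (4 * m + 1) := by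
      rcases m with _ | m
      · rfl
      · have h5 : 2 * (m + 1 + 1) - 1 = 2 * m + 3 := by omega
        have h6 : 2 * (m + 1) - 1 = 2 * m + 1 := by omega
        rw [h5, h6]; ring
    have e2 : (m + 1) * 2 - 1 = 2 * m + 1 := by omega
    rw [e1, e2]
    ring

theorem gen_two (s : ℕ) (hs : 1 ≤ s) : gen s 2 q = q ^ ((2 * s - 1) * (s - 1)) * (1 + q) ^ (s - 1) := by
  obtain ⟨m, rfl⟩ : ∃ m, s = m + 1 := ⟨s - 1, by omega⟩
  rw [gen_eq _ _ (by norm_num), range_eq_S (by norm_num)]
  have h3 : W 2 q (S 2 m 0 0) = q ^ (m * 2) * W 2 q (S 2 m 1 0) := by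
    rcases m with _ | m
    · rw [step0 q (by norm_num)]; simp
    · have h4 := step q (t := 2) (s := m) (i := 0) (j := 0) (by norm_num) (by norm_num)
      rw [if_neg (by norm_num), add_zero] at h4
      exact h4
  rw [h3, two, ← mul_assoc, ← pow_add]
  congr 2
  rcases m with _ | m
  · rfl
  · have h5 : 2 * (m + 1 + 1) - 1 = 2 * m + 3 := by omega
    have h6 : 2 * (m + 1) - 1 = 2 * m + 1 := by omega
    rw [h5, h6, Nat.add_sub_cancel]; ring

end


/-! ### Three rows -/

/-- `F 0 = F 1 = 1`, `F (s+2) = (1+x+2x²) F (s+1) + x³ F s` -/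
def F {K : Type*} [CommRing K] (x : K) : ℕ → K
  | 0 => 1
  | 1 => 1
  | (s + 2) => (1 + x + 2 * x ^ 2) * F x (s + 1) + x ^ 3 * F x s

section

variable {K : Type*} [CommRing K]

/-- auxiliary pair of sequences -/
def ab (x : K) : ℕ → K × K
  | 0 => (1, 1)
  | (m + 1) => ((1 + x + x ^ 2) * (ab x m).1 + (x ^ 2 + x ^ 3) * (ab x m).2,
      (1 + x) * (ab x m).1 + x ^ 2 * (ab x m).2)

lemma ab_F (x : K) (m : ℕ) : (ab x m).1 = F x (m + 1) ∧ (ab x (m + 1)).1 = F x (m + 2) := by
  induction m with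
  | zero =>
    constructor
    · simp [ab, F]
    · simp [ab, F]; ring
  | succ m ih =>
    refine ⟨ih.2, ?_⟩
    have h3 : F x (m + 3) = (1 + x + 2 * x ^ 2) * F x (m + 2) + x ^ 3 * F x (m + 1) := rfl
    rw [show m + 1 + 2 = m + 3 from rfl, h3, ← ih.1, ← ih.2]
    simp only [ab]
    ring

/-- exponent -/
def fe : ℕ → ℕ
  | 0 => 0
  | (m + 1) => fe m + 9 * m + 3

lemma fe_choose (m : ℕ) : fe m + 6 * m = 9 * (m + 1).choose 2 := by
  induction m with
  | zero => simp [fe]
  | succ m ih =>
    have h : (m + 1 + 1).choose 2 = (m + 1) + (m + 1).choose 2 := by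
      rw [Nat.choose_succ_succ' (m + 1) 1, Nat.choose_one_right]
    rw [h]
    simp only [fe]
    omega

lemma three (q x : K) (hq : q * x = 1) (m : ℕ) :
    W 3 q (S 3 m 2 0) = q ^ (fe m) * (ab x m).2 ∧
    W 3 q (S 3 m 1 0) = q ^ (fe m + 3 * m) * (ab x m).1 ∧
    W 3 q (S 3 m 0 0) = q ^ (fe m + 6 * m) * (ab x m).1 := by
  induction m with
  | zero =>
    rw [base q (by norm_num) 2 (by norm_num), base q (by norm_num) 1 (by norm_num),
      base q (by norm_num) 0 (by norm_num)]
    simp [fe, ab]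
  | succ m ih =>
    obtain ⟨i2, i1, i0⟩ := ih
    have h20 := step q (t := 3) (s := m) (i := 2) (j := 0) (by norm_num) (by norm_num)
    have h21 := step q (t := 3) (s := m) (i := 2) (j := 1) (by norm_num) (by norm_num)
    have h22 := step q (t := 3) (s := m) (i := 2) (j := 2) (by norm_num) (by norm_num)
    have h10 := step q (t := 3) (s := m) (i := 1) (j := 0) (by norm_num) (by norm_num)
    have h11 := step q (t := 3) (s := m) (i := 1) (j := 1) (by norm_num) (by norm_num)
    have h00 := step q (t := 3) (s := m) (i := 0) (j := 0) (by norm_num) (by norm_num)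
    rw [if_pos (by norm_num)] at h20 h21 h10
    rw [if_neg (by norm_num), add_zero] at h22 h11 h00
    norm_num at h20 h21 h22 h10 h11 h00
    rw [S_full (by norm_num)] at h20 h21 h22
    rw [show (m + 1) * 3 - 1 = 3 * m + 2 by omega] at h21 h11
    rw [show (m + 1) * 3 - 2 = 3 * m + 1 by omega] at h22
    rw [h22, i1, i2] at h21
    rw [h21, i0] at h20
    rw [h21] at h11
    have hx3 : q ^ 3 * x ^ 3 = 1 := by rw [← mul_pow, hq, one_pow]
    have hx2 : q ^ 2 * x ^ 2 = 1 := by rw [← mul_pow, hq, one_pow]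
    have g2 : W 3 q (S 3 (m + 1) 2 0) = q ^ (fe (m + 1)) * (ab x (m + 1)).2 := by
      rw [h20]
      simp only [fe, ab]
      linear_combination (-(q ^ (fe m + 9 * m) * q ^ 2 * (ab x m).1)) * hq
        - (q ^ (fe m + 9 * m) * q * (ab x m).2) * hx2
    have g1 : W 3 q (S 3 (m + 1) 1 0) = q ^ (fe (m + 1) + 3 * (m + 1)) * (ab x (m + 1)).1 := by
      rw [h10, h11, g2]
      simp only [fe, ab]
      linear_combination (-(q ^ (fe m + 12 * m) * q ^ 4 * (ab x m).1)) * hx2
        + (- (q ^ (fe m + 12 * m) * q ^ 3 * (ab x m).2)) * hx3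
    refine ⟨g2, g1, ?_⟩
    rw [h00, g1]
    ring

theorem gen_three (q x : K) (hq : q * x = 1) (s : ℕ) (hs : 1 ≤ s) :
    gen s 3 q = q ^ (9 * s.choose 2) * F x s := by
  obtain ⟨m, rfl⟩ : ∃ m, s = m + 1 := ⟨s - 1, by omega⟩
  rw [gen_eq _ _ (by norm_num), range_eq_S (by norm_num), (three q x hq m).2.2, fe_choose,
    (ab_F x m).1]

end

end Pool.Agent.Q285.RectLE
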