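import Mathlib

set_option autoImplicit false

/-! Exchanging two adjacent letters in words increasing along disjoint chains. -/

namespace Pool.Agent.Q285.StableT

open Finset

variable {α : Type*} {N : ℕ}

/-- the word is strictly increasing along the chains; `cl` is the relation of lying in the same
chain and `h` is the height in the chain -/
def Inc (cl : α → α → Prop) (h : α → ℕ) (w : α → Fin N) : Prop :=
  ∀ q q', cl q q' → h q < h q' → w q < w q'

/-- the letter `z` occurs in the chain of `q` -/
def Oc (cl : α → α → Prop) (w : α → Fin N) (q : α) (z : Fin N) : Prop := ∃ r, cl q r ∧ w r = z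

open Classical in
/-- exchange the letters `x`, `y` in the chains which do not contain both -/
noncomputable def T (cl : α → α → Prop) (x y : Fin N) (w : α → Fin N) : α → Fin N := fun q =>
  if w q = x ∧ ¬ Oc cl w q y then y
  else if w q = y ∧ ¬ Oc cl w q x then x
  else w q

variable {cl : α → α → Prop} {h : α → ℕ} {x y : Fin N}

lemma Oc_congr (hcl : Equivalence cl) {w : α → Fin N} {q q' : α} (hqq : cl q q') (z : Fin N) :
    Oc cl w q z ↔ Oc cl w q' z := by
  constructor
  · rintro ⟨r, hr, hz⟩; exact ⟨r, hcl.trans (hcl.symm hqq) hr, hz⟩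
  · rintro ⟨r, hr, hz⟩; exact ⟨r, hcl.trans hqq hr, hz⟩

lemma Oc_self (hcl : Equivalence cl) {w : α → Fin N} {q : α} {z : Fin N} (hz : w q = z) :
    Oc cl w q z := ⟨q, hcl.refl q, hz⟩

lemma T_both {w : α → Fin N} {q : α} (hA : Oc cl w q y) (hB : Oc cl w q x) :
    T cl x y w q = w q := by
  unfold T
  rw [if_neg (fun e => e.2 hA), if_neg (fun e => e.2 hB)]

open Classical in
lemma T_y (hcl : Equivalence cl) {w : α → Fin N} {q : α} (hB : ¬ Oc cl w q x) :
    T cl x y w q = if w q = y then x else w q := by
  have hq : w q ≠ x := fun e => hB (Oc_self hcl e)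
  unfold T
  rw [if_neg (fun e => hq e.1)]
  by_cases h1 : w q = y
  · rw [if_pos ⟨h1, hB⟩, if_pos h1]
  · rw [if_neg (fun e => h1 e.1), if_neg h1]

open Classical in
lemma T_x (hcl : Equivalence cl) {w : α → Fin N} {q : α} (hA : ¬ Oc cl w q y) :
    T cl x y w q = if w q = x then y else w q := by
  have hq : w q ≠ y := fun e => hA (Oc_self hcl e)
  unfold T
  by_cases h1 : w q = x
  · rw [if_pos ⟨h1, hA⟩, if_pos h1]
  · rw [if_neg (fun e => h1 e.1), if_neg (fun e => hq e.1), if_neg h1]

lemma T_inc (hcl : Equivalence cl) (hxy : (x : ℕ) + 1 = y) {w : α → Fin N}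
    (hw : Inc cl h w) : Inc cl h (T cl x y w) := by
  intro q q' hqq hlt
  have h1 := hw q q' hqq hlt
  rw [Fin.lt_def] at h1
  by_cases hA : Oc cl w q y
  · have hA' := (Oc_congr hcl hqq y).1 hA
    by_cases hB : Oc cl w q x
    · have hB' := (Oc_congr hcl hqq x).1 hB
      rw [T_both hA hB, T_both hA' hB']
      exact h1
    · have hB' : ¬ Oc cl w q' x := fun e => hB ((Oc_congr hcl hqq x).2 e)
      have hq : w q ≠ x := fun e => hB (Oc_self hcl e)
      have hqx : (w q : ℕ) ≠ x := fun e => hq (Fin.ext e)
      rw [T_y hcl hB, T_y hcl hB']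
      split_ifs with h2 h3 h3
      · rw [h2, h3] at h1; omega
      · rw [Fin.lt_def]; rw [h2] at h1; omega
      · rw [Fin.lt_def]; rw [h3] at h1; omega
      · exact h1
  · have hA' : ¬ Oc cl w q' y := fun e => hA ((Oc_congr hcl hqq y).2 e)
    have hq : w q' ≠ y := fun e => hA' (Oc_self hcl e)
    have hqx : (w q' : ℕ) ≠ y := fun e => hq (Fin.ext e)
    rw [T_x hcl hA, T_x hcl hA']
    split_ifs with h2 h3 h3
    · rw [h2, h3] at h1; omega
    · rw [Fin.lt_def]; rw [h2] at h1; omega
    · rw [Fin.lt_def]; rw [h3] at h1; omega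
    · exact h1

lemma T_mem (hcl : Equivalence cl) (hxy' : x ≠ y) (w : α → Fin N) (q : α) :
    (Oc cl (T cl x y w) q x ↔ Oc cl w q y) ∧ (Oc cl (T cl x y w) q y ↔ Oc cl w q x) := by
  by_cases hA : Oc cl w q y
  · by_cases hB : Oc cl w q x
    · have hT : ∀ r, cl q r → T cl x y w r = w r := fun r hr =>
        T_both ((Oc_congr hcl hr y).1 hA) ((Oc_congr hcl hr x).1 hB)
      constructor
      · refine ⟨fun _ => hA, fun _ => ?_⟩
        obtain ⟨r, hr, hrx⟩ := hB
        exact ⟨r, hr, by rw [hT r hr, hrx]⟩
      · refine ⟨fun _ => hB, fun _ => ?_⟩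
        obtain ⟨r, hr, hrx⟩ := hA
        exact ⟨r, hr, by rw [hT r hr, hrx]⟩
    · have hT : ∀ r, cl q r → T cl x y w r = if w r = y then x else w r := fun r hr =>
        T_y hcl (fun e => hB ((Oc_congr hcl hr x).2 e))
      constructor
      · refine ⟨fun _ => hA, fun _ => ?_⟩
        obtain ⟨r, hr, hrx⟩ := hA
        exact ⟨r, hr, by rw [hT r hr, if_pos hrx]⟩
      · refine ⟨?_, fun h1 => absurd h1 hB⟩
        rintro ⟨r, hr, hrx⟩
        rw [hT r hr] at hrx
        split_ifs at hrx with h1
        · exact absurd hrx hxy'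
        · exact absurd hrx h1
  · have hT : ∀ r, cl q r → T cl x y w r = if w r = x then y else w r := fun r hr =>
      T_x hcl (fun e => hA ((Oc_congr hcl hr y).2 e))
    constructor
    · refine ⟨?_, fun h1 => absurd h1 hA⟩
      rintro ⟨r, hr, hrx⟩
      rw [hT r hr] at hrx
      split_ifs at hrx with h1
      · exact absurd hrx.symm hxy'
      · exact absurd hrx h1
    · constructor
      · rintro ⟨r, hr, hrx⟩
        rw [hT r hr] at hrx
        split_ifs at hrx with h1
        · exact ⟨r, hr, h1⟩
        · exact absurd ⟨r, hr, hrx⟩ hA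
      · rintro ⟨r, hr, hrx⟩
        exact ⟨r, hr, by rw [hT r hr, if_pos hrx]⟩

lemma T_T (hcl : Equivalence cl) (hxy' : x ≠ y) (w : α → Fin N) :
    T cl x y (T cl x y w) = w := by
  funext q
  obtain ⟨m1, m2⟩ := T_mem hcl hxy' w q
  by_cases hA : Oc cl w q y
  · by_cases hB : Oc cl w q x
    · rw [T_both (m2.2 hB) (m1.2 hA), T_both hA hB]
    · have hq : w q ≠ x := fun e => hB (Oc_self hcl e)
      rw [T_x hcl (fun e => hB (m2.1 e)), T_y hcl hB]
      by_cases h1 : w q = y
      · simp [h1]
      · simp [h1, hq]
  · have hq : w q ≠ y := fun e => hA (Oc_self hcl e)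
    rw [T_y hcl (fun e => hA (m1.1 e)), T_x hcl hA]
    by_cases h1 : w q = x
    · simp [h1]
    · simp [h1, hq]

lemma inc_inj (hcl : Equivalence cl) (hh : Function.Injective h) {w : α → Fin N}
    (hw : Inc cl h w) {q q' : α} (hqq : cl q q') (he : w q = w q') : q = q' := by
  by_contra hne
  rcases lt_or_gt_of_ne (fun e => hne (hh e)) with h1 | h1
  · exact absurd he (hw q q' hqq h1).ne
  · exact absurd he (hw q' q (hcl.symm hqq) h1).ne'

variable [Fintype α] [DecidableEq α]

/-- multiplicities of the letters -/
def content (w : α → Fin N) (i : Fin N) : ℕ := (univ.filter (fun q => w q = i)).card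

lemma T_content (hcl : Equivalence cl) (hh : Function.Injective h) (hxy' : x ≠ y)
    {w : α → Fin N} (hw : Inc cl h w) (i : Fin N) :
    content (T cl x y w) i = content w (Equiv.swap x y i) := by
  classical
  -- positions in chains containing both letters
  have hboth : (univ.filter (fun q => w q = x ∧ Oc cl w q y)).card =
      (univ.filter (fun q => w q = y ∧ Oc cl w q x)).card := by
    apply Finset.card_bij (fun q hq => (Finset.mem_filter.1 hq).2.2.choose)
    · intro q hq
      have h1 := (Finset.mem_filter.1 hq).2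
      have h2 := h1.2.choose_spec
      simp only [mem_filter, mem_univ, true_and]
      exact ⟨h2.2, q, hcl.symm h2.1, h1.1⟩
    · intro q hq q' hq' hee
      have h1 := (Finset.mem_filter.1 hq).2
      have h2 := h1.2.choose_spec
      have h1' := (Finset.mem_filter.1 hq').2
      have h2' := h1'.2.choose_spec
      rw [← hee] at h2'
      exact inc_inj hcl hh hw (hcl.trans h2.1 (hcl.symm h2'.1)) (h1.1.trans h1'.1.symm)
    · intro q hq
      obtain ⟨h1, r, hr, hrx⟩ := (Finset.mem_filter.1 hq).2
      have hmem : r ∈ univ.filter (fun q => w q = x ∧ Oc cl w q y) := by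
        simp only [mem_filter, mem_univ, true_and]
        exact ⟨hrx, q, hcl.symm hr, h1⟩
      refine ⟨r, hmem, ?_⟩
      have h2 := (Finset.mem_filter.1 hmem).2.2.choose_spec
      exact inc_inj hcl hh hw (hcl.trans (hcl.symm h2.1) (hcl.symm hr)) (h2.2.trans h1.symm)
  have split : ∀ (u v : Fin N), content w u =
      (univ.filter (fun q => w q = u ∧ Oc cl w q v)).card +
      (univ.filter (fun q => w q = u ∧ ¬ Oc cl w q v)).card := by
    intro u v
    unfold content
    rw [← Finset.card_filter_add_card_filter_not (s := univ.filter (fun q => w q = u))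
      (fun q => Oc cl w q v), Finset.filter_filter, Finset.filter_filter]
  by_cases hix : i = x
  · subst hix
    rw [Equiv.swap_apply_left, split y i, ← hboth]
    unfold content
    rw [← Finset.card_union_of_disjoint]
    · congr 1
      ext q
      simp only [mem_filter, mem_univ, true_and, mem_union]
      by_cases hA : Oc cl w q y
      · by_cases hB : Oc cl w q i
        · rw [T_both hA hB]; simp [hA, hB]
        · have hq : w q ≠ i := fun e => hB (Oc_self hcl e)
          rw [T_y hcl hB]
          by_cases h1 : w q = y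
          · simp [h1, hB]
          · simp [h1, hq]
      · have hq : w q ≠ y := fun e => hA (Oc_self hcl e)
        rw [T_x hcl hA]
        by_cases h1 : w q = i
        · simp [h1, hA, hxy', hxy'.symm]
        · simp [h1, hq]
    · rw [Finset.disjoint_left]
      intro q h1 h2
      simp only [mem_filter, mem_univ, true_and] at h1 h2
      exact hxy' (h1.1.symm.trans h2.1)
  by_cases hiy : i = y
  · subst hiy
    rw [Equiv.swap_apply_right, split x i, hboth]
    unfold content
    rw [← Finset.card_union_of_disjoint]
    · congr 1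
      ext q
      simp only [mem_filter, mem_univ, true_and, mem_union]
      by_cases hA : Oc cl w q i
      · by_cases hB : Oc cl w q x
        · rw [T_both hA hB]; simp [hA, hB]
        · have hq : w q ≠ x := fun e => hB (Oc_self hcl e)
          rw [T_y hcl hB]
          by_cases h1 : w q = i
          · simp [h1, hB, hxy', hxy'.symm]
          · simp [h1, hq]
      · have hq : w q ≠ i := fun e => hA (Oc_self hcl e)
        rw [T_x hcl hA]
        by_cases h1 : w q = x
        · simp [h1, hA]
        · simp [h1, hq]
    · rw [Finset.disjoint_left]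
      intro q h1 h2
      simp only [mem_filter, mem_univ, true_and] at h1 h2
      exact hxy' (h2.1.symm.trans h1.1)
  · rw [Equiv.swap_apply_of_ne_of_ne hix hiy]
    unfold content
    congr 1
    ext q
    simp only [mem_filter, mem_univ, true_and]
    unfold T
    split_ifs with h1 h2
    · constructor
      · intro e; exact absurd e.symm hiy
      · intro e; exact absurd (e.symm.trans h1.1) hix
    · constructor
      · intro e; exact absurd e.symm hix
      · intro e; exact absurd (e.symm.trans h2.1) hiy
    · exact Iff.rfl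

/-- Exchanging the multiplicities of two adjacent letters does not change the number of words
which increase along the chains. -/
theorem card_swap (hcl : Equivalence cl) (hh : Function.Injective h) (hxy : (x : ℕ) + 1 = y)
    (k : Fin N → ℕ) :
    {w : α → Fin N | Inc cl h w ∧ content w = k}.ncard =
      {w : α → Fin N | Inc cl h w ∧ content w = fun i => k (Equiv.swap x y i)}.ncard := by
  have hxy' : x ≠ y := fun e => by rw [e] at hxy; omega
  refine Set.ncard_congr (fun w _ => T cl x y w) ?_ ?_ ?_
  · rintro w ⟨h1, h2⟩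
    refine ⟨T_inc hcl hxy h1, ?_⟩
    funext i
    rw [T_content hcl hh hxy' h1, h2]
  · intro w w' _ _ hww
    rw [← T_T hcl hxy' w, hww, T_T hcl hxy' w']
  · rintro w ⟨h1, h2⟩
    refine ⟨T cl x y w, ⟨T_inc hcl hxy h1, ?_⟩, T_T hcl hxy' w⟩
    funext i
    rw [T_content hcl hh hxy' h1, h2]
    simp

end Pool.Agent.Q285.StableT
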