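import Mathlib
import Pool.Agent.Q285.PermEnum

set_option autoImplicit false

/-! The sum closed class `Av(321, 3412, 4123, 23451)`. -/

namespace Pool.Agent.Q285.SumC

open Pool.Agent.Q285.PermEnum
open scoped ENNReal

/-- permutations of all lengths -/
abbrev PP := Σ n : ℕ, Equiv.Perm (Fin n)

/-- `Le a b`: the permutation `a` is contained in `b` -/
def Le (a b : PP) : Prop :=
  ∃ f : Fin a.1 → Fin b.1, StrictMono f ∧ ∀ i j, a.2 i < a.2 j ↔ b.2 (f i) < b.2 (f j)

/-- permutation classes -/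
def IsClass (C : Set PP) : Prop := ∀ a b, Le a b → b ∈ C → a ∈ C

/-- the direct sum -/
def dsum (σ τ : PP) : PP := ⟨σ.1 + τ.1, finSumFinEquiv.permCongr (Equiv.sumCongr σ.2 τ.2)⟩

/-- closed under direct sums -/
def SumClosed (C : Set PP) : Prop := ∀ σ ∈ C, ∀ τ ∈ C, dsum σ τ ∈ C

/-- nonempty and not the direct sum of two nonempty permutations -/
def Indec (π : PP) : Prop := π.1 ≠ 0 ∧ ∀ σ τ, π = dsum σ τ → σ.1 = 0 ∨ τ.1 = 0

/-- the indecomposable members -/
def ind (C : Set PP) : Set PP := {π | π ∈ C ∧ Indec π}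

/-- the number of members of length `n` -/
noncomputable def cnt (X : Set PP) (n : ℕ) : ℕ :=
  {π : Equiv.Perm (Fin n) | (⟨n, π⟩ : PP) ∈ X}.ncard

/-- upper growth rate -/
noncomputable def upGr (X : Set PP) : ℝ≥0∞ :=
  Filter.limsup (fun n : ℕ => ((cnt X n : ℕ) : ℝ≥0∞) ^ ((1 : ℝ) / (n : ℝ))) Filter.atTop

/-! ### Words -/

/-- order isomorphic to 321, 3412, 4123 or 23451 -/
def Bad (s : List ℕ) : Prop :=
  (∃ x y z, s = [x, y, z] ∧ z < y ∧ y < x) ∨
  (∃ x y z w, s = [x, y, z, w] ∧ z < w ∧ w < x ∧ x < y) ∨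
  (∃ x y z w, s = [x, y, z, w] ∧ y < z ∧ z < w ∧ w < x) ∨
  (∃ x y z u v, s = [x, y, z, u, v] ∧ v < x ∧ x < y ∧ y < z ∧ z < u)

/-- avoidance -/
def Good (l : List ℕ) : Prop := ∀ s, s.Sublist l → ¬ Bad s

lemma Good.sub {l l' : List ℕ} (h : Good l) (hs : l'.Sublist l) : Good l' :=
  fun s h' => h s (h'.trans hs)

lemma bad_map {α : Type} (t : List α) (f g : α → ℕ) (h : ∀ i j, f i < f j ↔ g i < g j) :
    Bad (t.map f) → Bad (t.map g) := by
  rintro (⟨x, y, z, hs, h1, h2⟩ | ⟨x, y, z, w, hs, h1, h2, h3⟩ | ⟨x, y, z, w, hs, h1, h2, h3⟩ |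
    ⟨x, y, z, u, v, hs, h1, h2, h3, h4⟩)
  · rcases t with _ | ⟨a, _ | ⟨b, _ | ⟨c, _ | ⟨d, t⟩⟩⟩⟩ <;> simp at hs
    obtain ⟨rfl, rfl, rfl⟩ := hs
    exact Or.inl ⟨_, _, _, rfl, (h _ _).1 h1, (h _ _).1 h2⟩
  · rcases t with _ | ⟨a, _ | ⟨b, _ | ⟨c, _ | ⟨d, _ | ⟨e, t⟩⟩⟩⟩⟩ <;> simp at hs
    obtain ⟨rfl, rfl, rfl, rfl⟩ := hs
    exact Or.inr (Or.inl ⟨_, _, _, _, rfl, (h _ _).1 h1, (h _ _).1 h2, (h _ _).1 h3⟩)
  · rcases t with _ | ⟨a, _ | ⟨b, _ | ⟨c, _ | ⟨d, _ | ⟨e, t⟩⟩⟩⟩⟩ <;> simp at hs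
    obtain ⟨rfl, rfl, rfl, rfl⟩ := hs
    exact Or.inr (Or.inr (Or.inl ⟨_, _, _, _, rfl, (h _ _).1 h1, (h _ _).1 h2, (h _ _).1 h3⟩))
  · rcases t with _ | ⟨a, _ | ⟨b, _ | ⟨c, _ | ⟨d, _ | ⟨e, _ | ⟨e', t⟩⟩⟩⟩⟩⟩ <;> simp at hs
    obtain ⟨rfl, rfl, rfl, rfl, rfl⟩ := hs
    exact Or.inr (Or.inr (Or.inr ⟨_, _, _, _, _, rfl, (h _ _).1 h1, (h _ _).1 h2, (h _ _).1 h3,
      (h _ _).1 h4⟩))

lemma good_map {l : List ℕ} (k : ℕ) (h : Good (l.map (· + k))) : Good l := by
  intro s hs hb
  refine h (s.map (· + k)) (hs.map _) ?_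
  have := bad_map s id (· + k) (fun i j => by simp)
  rw [List.map_id] at this
  exact this hb

lemma map_good {l : List ℕ} (k : ℕ) (h : Good l) : Good (l.map (· + k)) := by
  intro s hs hb
  rw [List.sublist_map_iff] at hs
  obtain ⟨t, ht, rfl⟩ := hs
  refine h t ht ?_
  have := bad_map t (· + k) id (fun i j => by simp)
  rw [List.map_id] at this
  exact this hb

/-- the head is larger than the last entry -/
lemma bad_split {s1 s2 : List ℕ} (h : Bad (s1 ++ s2)) (h1 : s1 ≠ []) (h2 : s2 ≠ []) :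
    ∃ x ∈ s1, ∃ y ∈ s2, y < x := by
  obtain ⟨a, s1, rfl⟩ := List.exists_cons_of_ne_nil h1
  obtain ⟨s2, b, rfl⟩ : ∃ l b, s2 = l ++ [b] := ⟨_, _, (List.dropLast_append_getLast h2).symm⟩
  refine ⟨a, by simp, b, by simp, ?_⟩
  have h3 : (a :: s1 ++ (s2 ++ [b])).head? = some a := rfl
  have h4 : (a :: s1 ++ (s2 ++ [b])).getLast? = some b := by
    rw [← List.append_assoc, List.getLast?_append]; simp
  rcases h with (⟨x, y, z, hs, h1, h2⟩ | ⟨x, y, z, w, hs, h1, h2, h3⟩ | ⟨x, y, z, w, hs, h1, h2, h3⟩ |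
    ⟨x, y, z, u, v, hs, h1, h2, h3, h4⟩) <;> simp_all <;> omega

/-- the class -/
def Cst : Set PP := {π | Good (word π.2)}

lemma word_eq {n : ℕ} (σ : Equiv.Perm (Fin n)) :
    word σ = (List.finRange n).map (fun i => (σ i : ℕ)) := by
  rw [word, List.ofFn_eq_map]

lemma class_Cst : IsClass Cst := by
  rintro ⟨k, σ⟩ ⟨n, τ⟩ ⟨f, hf, hord⟩ hC
  simp only at f hf hord
  intro s hs hb
  simp only at hs
  rw [word_eq, List.sublist_map_iff] at hs
  obtain ⟨t, ht, rfl⟩ := hs
  have h1 : (t.map f).Sublist (List.finRange n) := by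
    apply List.sublist_of_subperm_of_pairwise (r := (· < ·))
    · apply List.subperm_of_subset
      · exact ((List.nodup_finRange k).sublist ht).map hf.injective
      · intro x _; exact List.mem_finRange x
    · rw [List.pairwise_map]
      exact ((List.pairwise_lt_finRange k).sublist ht).imp (fun h => hf h)
    · exact List.pairwise_lt_finRange n
  refine hC (t.map (fun i => (τ (f i) : ℕ))) ?_ (bad_map t _ _ (fun i j => ?_) hb)
  · simp only
    rw [word_eq]
    have := h1.map (fun i => (τ i : ℕ))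
    rwa [List.map_map] at this
  · have := hord i j
    rw [Fin.lt_def, Fin.lt_def] at this
    exact this

lemma word_dsum (σ τ : PP) : word (dsum σ τ).2 = word σ.2 ++ (word τ.2).map (· + σ.1) := by
  obtain ⟨m, σ⟩ := σ
  obtain ⟨n, τ⟩ := τ
  simp only [word, dsum]
  rw [List.ofFn_add, List.map_ofFn]
  congr 1
  · congr 1
    funext i
    change ((finSumFinEquiv (Equiv.sumCongr σ τ (finSumFinEquiv.symm (Fin.castAdd n i)))) : ℕ) = _
    rw [finSumFinEquiv_symm_apply_castAdd]
    simp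
  · congr 1
    funext i
    change ((finSumFinEquiv (Equiv.sumCongr σ τ (finSumFinEquiv.symm (Fin.natAdd m i)))) : ℕ) = _
    rw [finSumFinEquiv_symm_apply_natAdd]
    simp [add_comm]

lemma good_append {l1 l2 : List ℕ} {m : ℕ} (h1 : Good l1) (h2 : Good l2) (hm : ∀ x ∈ l1, x < m) :
    Good (l1 ++ l2.map (· + m)) := by
  intro s hs hb
  rw [List.sublist_append_iff] at hs
  obtain ⟨s1, s2, rfl, hs1, hs2⟩ := hs
  by_cases e1 : s1 = []
  · subst e1
    exact map_good m h2 _ hs2 hb
  by_cases e2 : s2 = []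
  · subst e2
    rw [List.append_nil] at hb
    exact h1 _ hs1 hb
  obtain ⟨x, hx, y, hy, hxy⟩ := bad_split hb e1 e2
  have h3 := hm x (hs1.subset hx)
  have h4 := hs2.subset hy
  rw [List.mem_map] at h4
  obtain ⟨y', -, rfl⟩ := h4
  omega

lemma lt_of_word {n : ℕ} {l : List ℕ} (h : l.Perm (List.range n)) : ∀ x ∈ l, x < n :=
  fun _ hx => List.mem_range.1 (h.mem_iff.1 hx)

lemma sum_Cst : SumClosed Cst := by
  intro σ hσ τ hτ
  change Good (word (dsum σ τ).2)
  rw [word_dsum]
  exact good_append hσ hτ (lt_of_word (word_perm σ.2))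

/-! ### Counting words -/

/-- words of length `n` with a property -/
def Wd (P : List ℕ → Prop) (n : ℕ) : Set (List ℕ) := {l | l.Perm (List.range n) ∧ P l}

lemma Wd_finite (P : List ℕ → Prop) (n : ℕ) : (Wd P n).Finite := by
  apply (List.range n).permutations.toFinset.finite_toSet.subset
  intro l hl
  simp only [Finset.mem_coe, List.mem_toFinset, List.mem_permutations]
  exact hl.1

lemma Wd_card_le (P : List ℕ → Prop) (n : ℕ) : (Wd P n).ncard ≤ n.factorial := by
  have h1 : Wd P n ⊆ ((List.range n).permutations.toFinset : Set (List ℕ)) := by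
    intro l hl
    simp only [Finset.mem_coe, List.mem_toFinset, List.mem_permutations]
    exact hl.1
  calc (Wd P n).ncard ≤ ((List.range n).permutations.toFinset : Set (List ℕ)).ncard :=
        Set.ncard_le_ncard h1 (Finset.finite_toSet _)
    _ = (List.range n).permutations.toFinset.card := Set.ncard_coe_finset _
    _ ≤ (List.range n).permutations.length := List.toFinset_card_le _
    _ = n.factorial := by rw [List.length_permutations, List.length_range]

lemma cnt_eq (X : Set PP) (P : List ℕ → Prop) (n : ℕ)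
    (h : ∀ σ : Equiv.Perm (Fin n), (⟨n, σ⟩ : PP) ∈ X ↔ P (word σ)) : cnt X n = (Wd P n).ncard := by
  unfold cnt
  rw [← Set.ncard_image_of_injective _ (word_injective n)]
  congr 1
  ext l
  constructor
  · rintro ⟨σ, hσ, rfl⟩
    exact ⟨word_perm σ, (h σ).1 hσ⟩
  · rintro ⟨hl, hP⟩
    obtain ⟨σ, rfl⟩ := exists_word hl
    exact ⟨σ, (h σ).2 hP, rfl⟩

/-- indecomposability of words -/
def IndL (l : List ℕ) : Prop := l ≠ [] ∧ ∀ k, 0 < k → k < l.length → ∃ x ∈ l.take k, k ≤ x

lemma shift {n k : ℕ} {u : List ℕ} (h : (List.range k ++ u).Perm (List.range (n + k))) :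
    (u.map (· - k)).Perm (List.range n) ∧ u = (u.map (· - k)).map (· + k) := by
  have h1 : List.range (n + k) = List.range k ++ (List.range n).map (k + ·) := by
    rw [add_comm, List.range_add]
  rw [h1, List.perm_append_left_iff] at h
  constructor
  · have := h.map (· - k)
    rw [List.map_map] at this
    have e : ((fun x => x - k) ∘ fun x => k + x) = id := by
      funext x; simp
    rwa [e, List.map_id] at this
  · rw [List.map_map]
    symm
    have : ∀ x ∈ u, ((fun x => x + k) ∘ fun x => x - k) x = x := by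
      intro x hx
      have := h.mem_iff.1 hx
      rw [List.mem_map] at this
      obtain ⟨y, -, rfl⟩ := this
      simp [add_comm]
    rw [List.map_congr_left this, List.map_id']

lemma unshift {n k : ℕ} {u : List ℕ} (h : u.Perm (List.range n)) :
    (List.range k ++ u.map (· + k)).Perm (List.range (n + k)) := by
  have h1 : List.range (n + k) = List.range k ++ (List.range n).map (k + ·) := by
    rw [add_comm, List.range_add]
  rw [h1, List.perm_append_left_iff]
  have e : (fun x => k + x) = fun x : ℕ => x + k := by funext x; omega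
  rw [e]
  exact h.map _

lemma indec_iff {n : ℕ} (π : Equiv.Perm (Fin n)) : Indec ⟨n, π⟩ ↔ IndL (word π) := by
  have hlen : (word π).length = n := by simp [word]
  have hperm := word_perm π
  constructor
  · rintro ⟨h0, h⟩
    simp only at h0
    refine ⟨?_, ?_⟩
    · intro h1
      rw [h1] at hlen
      exact h0 hlen.symm
    · intro k hk hkn
      by_contra hc
      push Not at hc
      rw [hlen] at hkn
      have hnd : (word π).Nodup := hperm.symm.nodup List.nodup_range
      have h1 : ((word π).take k).Perm (List.range k) := by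
        have hnd' : ((word π).take k).Nodup := hnd.sublist (List.take_sublist _ _)
        apply List.Subperm.perm_of_length_le
        · exact List.subperm_of_subset hnd' (fun x hx => List.mem_range.2 (hc x hx))
        · rw [List.length_range, List.length_take, hlen]
          omega
      have h2 : (List.range k ++ (word π).drop k).Perm (List.range (n - k + k)) := by
        rw [Nat.sub_add_cancel hkn.le]
        refine List.Perm.trans ?_ hperm
        conv_rhs => rw [← List.take_append_drop k (word π)]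
        exact h1.symm.append_right _
      obtain ⟨h3, h4⟩ := shift h2
      obtain ⟨σ, hσ⟩ := exists_word h1
      obtain ⟨τ, hτ⟩ := exists_word h3
      have h5 : word (dsum ⟨k, σ⟩ ⟨n - k, τ⟩).2 = word π := by
        rw [word_dsum]
        simp only
        rw [hσ, hτ, ← h4, List.take_append_drop]
      have h6 : (⟨n, π⟩ : PP) = dsum ⟨k, σ⟩ ⟨n - k, τ⟩ := by
        have h7 : (dsum ⟨k, σ⟩ ⟨n - k, τ⟩).1 = n := by
          change k + (n - k) = n
          omega
        generalize dsum ⟨k, σ⟩ ⟨n - k, τ⟩ = ρ at *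
        obtain ⟨m, ρ⟩ := ρ
        simp only at h7
        subst h7
        have h8 : ρ = π := word_injective _ h5
        rw [h8]
      rcases h _ _ h6 with h7 | h7
      · simp only at h7; omega
      · simp only at h7; omega
  · rintro ⟨h0, h⟩
    refine ⟨?_, ?_⟩
    · intro h1
      apply h0
      rw [← List.length_eq_zero_iff, hlen]
      exact h1
    · intro σ τ hst
      by_contra hc
      push Not at hc
      have h1 : word π = word σ.2 ++ (word τ.2).map (· + σ.1) := by
        rw [← word_dsum, ← hst]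
      have h2 : (word σ.2).length = σ.1 := by simp [word]
      have h3 : (word τ.2).length = τ.1 := by simp [word]
      obtain ⟨x, hx, hx2⟩ := h σ.1 (Nat.pos_of_ne_zero hc.1) (by
        rw [h1, List.length_append, List.length_map, h2, h3]
        have := Nat.pos_of_ne_zero hc.2
        omega)
      rw [h1, List.take_append_of_le_length (by rw [h2]), List.take_of_length_le (by rw [h2])] at hx
      have := lt_of_word (word_perm σ.2) x hx
      omega

/-! ### The decomposition of the words of the class -/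

lemma pair_sub {t : List ℕ} {x y : ℕ} (hx : x ∈ t) (hy : y ∈ t) (hxy : x ≠ y) :
    [x, y].Sublist t ∨ [y, x].Sublist t := by
  induction t with
  | nil => simp at hx
  | cons a t ih =>
    rw [List.mem_cons] at hx hy
    rcases hx with rfl | hx
    · rcases hy with rfl | hy
      · exact absurd rfl hxy
      · left
        exact List.Sublist.cons_cons _ (List.singleton_sublist.2 hy)
    · rcases hy with rfl | hy
      · right
        exact List.Sublist.cons_cons _ (List.singleton_sublist.2 hx)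
      · exact (ih hx hy).imp (fun h => h.cons _) (fun h => h.cons _)

lemma good_two {s t : List ℕ} {b x y : ℕ} (hg : Good (s ++ 0 :: t)) (hb : b ∈ s) (hx : x ∈ t)
    (hy : y ∈ t) (h0 : 0 < x) (hxy : x < y) (hyb : y < b) : False := by
  rcases pair_sub hx hy hxy.ne with h | h
  · refine hg [b, 0, x, y] ?_ (Or.inr (Or.inr (Or.inl ⟨_, _, _, _, rfl, h0, hxy, hyb⟩)))
    exact List.Sublist.append (List.singleton_sublist.2 hb) (h.cons_cons 0)
  · refine hg [b, y, x] ?_ (Or.inl ⟨_, _, _, rfl, hxy, hyb⟩)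
    exact List.Sublist.append (List.singleton_sublist.2 hb) (h.cons 0)

lemma good_one {s t : List ℕ} {a b x : ℕ} (hg : Good (s ++ 0 :: t)) (hab : [a, b].Sublist s)
    (hx : x ∈ t) (h0 : 0 < x) (hxa : x < a) (hlt : a < b) : False := by
  refine hg [a, b, 0, x] ?_ (Or.inr (Or.inl ⟨_, _, _, _, rfl, h0, hxa, hlt⟩))
  exact List.Sublist.append hab ((List.singleton_sublist.2 hx).cons_cons 0)

lemma good_asc {s t : List ℕ} {a b : ℕ} (hg : Good (s ++ 0 :: t)) (hab : [a, b].Sublist s)
    (hb : 0 < b) : ¬ b < a := by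
  intro h
  refine hg [a, b, 0] ?_ (Or.inl ⟨_, _, _, rfl, hb, h⟩)
  exact List.Sublist.append hab (List.singleton_sublist.2 (List.mem_cons_self))

/-- the head is at most one -/
def Hd (l : List ℕ) : Prop := ∃ a r, l = a :: r ∧ a ≤ 1

lemma decomp {n : ℕ} {l : List ℕ} (hl : l.Perm (List.range (n + 1))) (hg : Good l) :
    (∃ l', l'.Perm (List.range n) ∧ Good l' ∧ l = 0 :: l'.map (· + 1)) ∨
    (∃ a r, (a :: r).Perm (List.range n) ∧ Good (a :: r) ∧ a ≤ 1 ∧
      l = (a + 1) :: 0 :: r.map (· + 1)) ∨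
    (∃ m a r, n = m + 1 ∧ (a :: r).Perm (List.range m) ∧ Good (a :: r) ∧ a ≤ 1 ∧
      l = 1 :: (a + 2) :: 0 :: r.map (· + 2)) ∨
    (∃ m a r, n = m + 2 ∧ (a :: r).Perm (List.range m) ∧ Good (a :: r) ∧ a ≤ 1 ∧
      l = 1 :: 2 :: (a + 3) :: 0 :: r.map (· + 3)) := by
  have h0 : 0 ∈ l := hl.mem_iff.2 (List.mem_range.2 (Nat.succ_pos n))
  obtain ⟨s, t, rfl⟩ := List.append_of_mem h0
  have hnd : (s ++ 0 :: t).Nodup := hl.symm.nodup List.nodup_range
  have hmid : (s ++ 0 :: t).Perm (0 :: (s ++ t)) := List.perm_middle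
  have hnd2 := hmid.nodup hnd
  rw [List.nodup_cons, List.mem_append, not_or] at hnd2
  obtain ⟨⟨h0s, h0t⟩, hndst⟩ := hnd2
  have hmem : ∀ v, v ≤ n → v ≠ 0 → v ∉ s → v ∈ t := by
    intro v hv hv0 hvs
    have : v ∈ s ++ 0 :: t := hl.mem_iff.2 (List.mem_range.2 (by omega))
    rw [List.mem_append, List.mem_cons] at this
    tauto
  have hle : ∀ v ∈ s, v ≤ n := by
    intro v hv
    have := List.mem_range.1 (hl.mem_iff.1 (List.mem_append_left _ hv))
    omega
  have hpm : (0 :: (s ++ t)).Perm (List.range (n + 1)) := hmid.symm.trans hl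
  have key : ∀ k m : ℕ, n + 1 = m + k → ∀ u, (0 :: (s ++ t)).Perm (List.range k ++ u) →
      (u.map (· - k)).Perm (List.range m) ∧ u = (u.map (· - k)).map (· + k) := by
    intro k m hm u hu
    rw [hm] at hpm
    exact shift (hu.symm.trans hpm)
  rcases s with _ | ⟨a, _ | ⟨b, _ | ⟨c, _ | ⟨d, s⟩⟩⟩⟩
  · left
    obtain ⟨h1, h2⟩ := key 1 n rfl t (by simp)
    refine ⟨t.map (· - 1), h1, ?_, ?_⟩
    · apply good_map 1
      rw [← h2]
      exact hg.sub (List.sublist_cons_self _ _)
    · rw [← h2]; rfl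
  · right; left
    have ha0 : a ≠ 0 := fun h => h0s (by rw [h]; exact List.mem_cons_self)
    have ha : a ≤ 2 := by
      by_contra hc
      have hle' := hle a List.mem_cons_self
      exact good_two hg (b := a) (x := 1) (y := 2) List.mem_cons_self
        (hmem 1 (by omega) (by omega) (by simp; omega))
        (hmem 2 (by omega) (by omega) (by simp; omega)) (by omega) (by omega) (by omega)
    obtain ⟨h1, h2⟩ := key 1 n rfl (a :: t) (by simp)
    rw [List.map_cons] at h1 h2
    rw [List.map_cons, List.cons.injEq] at h2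
    refine ⟨a - 1, t.map (· - 1), h1, ?_, by omega, ?_⟩
    · apply good_map 1
      rw [List.map_cons, ← h2.1, ← h2.2]
      exact hg.sub (by simp)
    · rw [← h2.1, ← h2.2]; rfl
  · right; right; left
    have ha0 : a ≠ 0 := fun h => h0s (by rw [h]; simp)
    have hb0 : b ≠ 0 := fun h => h0s (by rw [h]; simp)
    have hab : a < b := by
      have h1 := good_asc hg (a := a) (b := b) (by simp) (by omega)
      have h2 : a ≠ b := by
        rintro rfl
        simp at hndst
      omega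
    have ha1 : a = 1 := by
      by_contra hc
      have := hle b (by simp)
      exact good_one hg (a := a) (b := b) (x := 1) (by simp)
        (hmem 1 (by omega) (by omega) (by simp; omega)) (by omega) (by omega) hab
    subst ha1
    have hb : b ≤ 3 := by
      by_contra hc
      have hle' := hle b (by simp)
      exact good_two hg (b := b) (x := 2) (y := 3) (by simp)
        (hmem 2 (by omega) (by omega) (by simp; omega))
        (hmem 3 (by omega) (by omega) (by simp; omega)) (by omega) (by omega) (by omega)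
    have hn := hle b (by simp)
    obtain ⟨m, rfl⟩ : ∃ m, n = m + 1 := ⟨n - 1, by omega⟩
    obtain ⟨h1, h2⟩ := key 2 m rfl (b :: t) (by simp [List.range_succ])
    rw [List.map_cons] at h1 h2
    rw [List.map_cons, List.cons.injEq] at h2
    refine ⟨m, b - 2, t.map (· - 2), rfl, h1, ?_, by omega, ?_⟩
    · apply good_map 2
      rw [List.map_cons, ← h2.1, ← h2.2]
      exact hg.sub (by
        simp only [List.cons_append, List.nil_append]
        exact List.Sublist.cons _ (List.Sublist.cons_cons _ (List.sublist_cons_self _ _)))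
    · rw [← h2.1, ← h2.2]; rfl
  · right; right; right
    have ha0 : a ≠ 0 := fun h => h0s (by rw [h]; simp)
    have hb0 : b ≠ 0 := fun h => h0s (by rw [h]; simp)
    have hc0 : c ≠ 0 := fun h => h0s (by rw [h]; simp)
    have hab : a < b := by
      have h1 := good_asc hg (a := a) (b := b) (by simp) (by omega)
      have h2 : a ≠ b := by
        rintro rfl
        simp at hndst
      omega
    have hbc : b < c := by
      have h1 := good_asc hg (a := b) (b := c) (by simp) (by omega)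
      have h2 : b ≠ c := by
        rintro rfl
        simp at hndst
      omega
    have hcn := hle c (by simp)
    have ha1 : a = 1 := by
      by_contra hc
      exact good_one hg (a := a) (b := b) (x := 1) (by simp)
        (hmem 1 (by omega) (by omega) (by simp; omega)) (by omega) (by omega) hab
    subst ha1
    have hb1 : b = 2 := by
      by_contra hc
      exact good_one hg (a := b) (b := c) (x := 2) (by simp)
        (hmem 2 (by omega) (by omega) (by simp; omega)) (by omega) (by omega) hbc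
    subst hb1
    have hb : c ≤ 4 := by
      by_contra hc
      exact good_two hg (b := c) (x := 3) (y := 4) (by simp)
        (hmem 3 (by omega) (by omega) (by simp; omega))
        (hmem 4 (by omega) (by omega) (by simp; omega)) (by omega) (by omega) (by omega)
    obtain ⟨m, rfl⟩ : ∃ m, n = m + 2 := ⟨n - 2, by omega⟩
    obtain ⟨h1, h2⟩ := key 3 m rfl (c :: t) (by simp [List.range_succ])
    rw [List.map_cons] at h1 h2
    rw [List.map_cons, List.cons.injEq] at h2
    refine ⟨m, c - 3, t.map (· - 3), rfl, h1, ?_, by omega, ?_⟩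
    · apply good_map 3
      rw [List.map_cons, ← h2.1, ← h2.2]
      exact hg.sub (by
        simp only [List.cons_append, List.nil_append]
        exact List.Sublist.cons _ (List.Sublist.cons _ (List.Sublist.cons_cons _
          (List.sublist_cons_self _ _))))
    · rw [← h2.1, ← h2.2]; rfl
  · exfalso
    have ha0 : a ≠ 0 := fun h => h0s (by rw [h]; simp)
    have hb0 : b ≠ 0 := fun h => h0s (by rw [h]; simp)
    have hc0 : c ≠ 0 := fun h => h0s (by rw [h]; simp)
    have hd0 : d ≠ 0 := fun h => h0s (by rw [h]; simp)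
    have hab : a < b := by
      have h1 := good_asc hg (a := a) (b := b) (by simp) (by omega)
      have h2 : a ≠ b := by
        rintro rfl
        simp at hndst
      omega
    have hbc : b < c := by
      have h1 := good_asc hg (a := b) (b := c) (by
        exact List.Sublist.cons _ (by simp)) (by omega)
      have h2 : b ≠ c := by
        rintro rfl
        simp at hndst
      omega
    have hcd : c < d := by
      have h1 := good_asc hg (a := c) (b := d) (by
        exact List.Sublist.cons _ (List.Sublist.cons _ (by simp))) (by omega)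
      have h2 : c ≠ d := by
        rintro rfl
        simp at hndst
      omega
    refine hg [a, b, c, d, 0] ?_ (Or.inr (Or.inr (Or.inr ⟨_, _, _, _, _, rfl, by omega, hab,
      hbc, hcd⟩)))
    exact List.Sublist.append (l₁ := [a, b, c, d]) (by simp)
      (List.singleton_sublist.2 List.mem_cons_self)

/-! ### Recursive bounds from above -/

/-- insertion of a new smallest value, in front -/
def e0 (l : List ℕ) : List ℕ := 0 :: l.map (· + 1)
/-- insertion of a new smallest value in second position -/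
def e1 : List ℕ → List ℕ
  | [] => []
  | a :: r => (a + 1) :: 0 :: r.map (· + 1)
/-- insertion of two values -/
def e2 : List ℕ → List ℕ
  | [] => []
  | a :: r => 1 :: (a + 2) :: 0 :: r.map (· + 2)
/-- insertion of three values -/
def e3 : List ℕ → List ℕ
  | [] => []
  | a :: r => 1 :: 2 :: (a + 3) :: 0 :: r.map (· + 3)

/-- words of the class -/
abbrev FF := Wd Good
/-- words of the class with first value at most one -/
abbrev GG := Wd (fun l => Good l ∧ Hd l)
/-- indecomposable words of the class -/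
abbrev II := Wd (fun l => Good l ∧ IndL l)
/-- indecomposable words of the class with first value at most one -/
abbrev HH := Wd (fun l => Good l ∧ Hd l ∧ IndL l)

lemma card4 {A B C D E : Set (List ℕ)} {f1 f2 f3 f4 : List ℕ → List ℕ} (hA : A.Finite)
    (hB : B.Finite) (hC : C.Finite) (hD : D.Finite)
    (h : E ⊆ f1 '' A ∪ f2 '' B ∪ f3 '' C ∪ f4 '' D) :
    E.ncard ≤ A.ncard + B.ncard + C.ncard + D.ncard := by
  calc E.ncard ≤ (f1 '' A ∪ f2 '' B ∪ f3 '' C ∪ f4 '' D).ncard := by
        exact Set.ncard_le_ncard h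
          ((((hA.image _).union (hB.image _)).union (hC.image _)).union (hD.image _))
    _ ≤ (f1 '' A).ncard + (f2 '' B).ncard + (f3 '' C).ncard + (f4 '' D).ncard := by
        refine (Set.ncard_union_le _ _).trans (Nat.add_le_add_right ?_ _)
        refine (Set.ncard_union_le _ _).trans (Nat.add_le_add_right ?_ _)
        exact Set.ncard_union_le _ _
    _ ≤ _ := by
        have h1 := Set.ncard_image_le (f := f1) hA
        have h2 := Set.ncard_image_le (f := f2) hB
        have h3 := Set.ncard_image_le (f := f3) hC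
        have h4 := Set.ncard_image_le (f := f4) hD
        omega

lemma rec_F (n : ℕ) : (FF (n + 3)).ncard ≤ (FF (n + 2)).ncard + (GG (n + 2)).ncard +
    (GG (n + 1)).ncard + (GG n).ncard := by
  refine card4 (f1 := e0) (f2 := e1) (f3 := e2) (f4 := e3) (Wd_finite _ _) (Wd_finite _ _)
    (Wd_finite _ _) (Wd_finite _ _) ?_
  rintro l ⟨hl, hg⟩
  rcases decomp hl hg with ⟨l', h1, h2, h3⟩ | ⟨a, r, h1, h2, h3, h4⟩ | ⟨m, a, r, h0, h1, h2, h3, h4⟩ |
    ⟨m, a, r, h0, h1, h2, h3, h4⟩
  · left; left; left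
    exact ⟨l', ⟨h1, h2⟩, h3.symm⟩
  · left; left; right
    exact ⟨a :: r, ⟨h1, h2, a, r, rfl, h3⟩, h4.symm⟩
  · left; right
    obtain rfl : m = n + 1 := by omega
    exact ⟨a :: r, ⟨h1, h2, a, r, rfl, h3⟩, h4.symm⟩
  · right
    obtain rfl : m = n := by omega
    exact ⟨a :: r, ⟨h1, h2, a, r, rfl, h3⟩, h4.symm⟩

lemma rec_G (n : ℕ) : (GG (n + 3)).ncard ≤ (FF (n + 2)).ncard + (FF (n + 1)).ncard +
    (GG (n + 1)).ncard + (GG n).ncard := by
  refine card4 (f1 := e0) (f2 := fun l => e1 (e0 l)) (f3 := e2) (f4 := e3) (Wd_finite _ _)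
    (Wd_finite _ _) (Wd_finite _ _) (Wd_finite _ _) ?_
  rintro l ⟨hl, hg, a', r', hd, hle⟩
  rcases decomp hl hg with ⟨l', h1, h2, h3⟩ | ⟨a, r, h1, h2, h3, h4⟩ | ⟨m, a, r, h0, h1, h2, h3, h4⟩ |
    ⟨m, a, r, h0, h1, h2, h3, h4⟩
  · left; left; left
    exact ⟨l', ⟨h1, h2⟩, h3.symm⟩
  · left; left; right
    have ha : a = 0 := by
      rw [h4] at hd
      have := (List.cons.inj hd).1
      omega
    subst ha
    obtain ⟨h5, h6⟩ := shift (n := n + 1) (k := 1) (u := r) h1
    refine ⟨r.map (· - 1), ⟨h5, ?_⟩, ?_⟩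
    · apply good_map 1
      rw [← h6]
      exact h2.sub (List.sublist_cons_self _ _)
    · rw [h4]
      simp only [e0, e1]
      rw [← h6]
  · left; right
    obtain rfl : m = n + 1 := by omega
    exact ⟨a :: r, ⟨h1, h2, a, r, rfl, h3⟩, h4.symm⟩
  · right
    obtain rfl : m = n := by omega
    exact ⟨a :: r, ⟨h1, h2, a, r, rfl, h3⟩, h4.symm⟩

lemma take_form {pre r : List ℕ} {a j k : ℕ} (hj : pre.length + 1 = j) :
    (pre ++ (a + j) :: 0 :: r.map (· + j)).take (j + (k + 1)) =
      pre ++ (a + j) :: 0 :: (r.take k).map (· + j) := by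
  have h : j + (k + 1) = pre.length + (k + 2) := by omega
  rw [h, List.take_length_add_append]
  simp

lemma ind_down {pre r : List ℕ} {a j : ℕ} (hj : pre.length + 1 = j) (hpre : ∀ x ∈ pre, x < j)
    (h : IndL (pre ++ (a + j) :: 0 :: r.map (· + j))) : IndL (a :: r) := by
  refine ⟨by simp, fun k hk hkr => ?_⟩
  obtain ⟨k, rfl⟩ : ∃ m, k = m + 1 := ⟨k - 1, by omega⟩
  obtain ⟨x, hx, hx2⟩ := h.2 (j + (k + 1)) (by omega) (by simp at hkr ⊢; omega)
  rw [take_form hj] at hx
  simp only [List.mem_append, List.mem_cons, List.mem_map] at hx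
  rcases hx with hx | hx | hx | ⟨y, hy, rfl⟩
  · have := hpre x hx; omega
  · exact ⟨a, by simp, by omega⟩
  · omega
  · refine ⟨y, ?_, by omega⟩
    rw [List.take_succ_cons]
    exact List.mem_cons_of_mem _ hy

lemma ind_up {pre r : List ℕ} {a j : ℕ} (hj : pre.length + 1 = j)
    (hpre : ∀ k, 0 < k → k ≤ pre.length → ∃ x ∈ pre.take k, k ≤ x)
    (h : IndL (a :: r)) : IndL (pre ++ (a + j) :: 0 :: r.map (· + j)) := by
  refine ⟨by simp, fun k hk hkr => ?_⟩
  by_cases h1 : k ≤ pre.length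
  · obtain ⟨x, hx, hx2⟩ := hpre k hk h1
    exact ⟨x, by rw [List.take_append_of_le_length h1]; exact hx, hx2⟩
  · by_cases h2 : k = j
    · refine ⟨a + j, ?_, by omega⟩
      have h3 : k = pre.length + 1 := by omega
      rw [h3, List.take_length_add_append]
      simp
    · obtain ⟨m, rfl⟩ : ∃ m, k = j + (m + 1) := ⟨k - j - 1, by omega⟩
      rw [take_form hj]
      obtain ⟨x, hx, hx2⟩ := h.2 (m + 1) (by omega) (by simp at hkr ⊢; omega)
      rw [List.take_succ_cons, List.mem_cons] at hx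
      rcases hx with rfl | hx
      · exact ⟨x + j, by simp, by omega⟩
      · refine ⟨x + j, ?_, by omega⟩
        simp only [List.mem_append, List.mem_cons, List.mem_map]
        exact Or.inr (Or.inr (Or.inr ⟨x, hx, rfl⟩))

lemma len_of {n : ℕ} {l : List ℕ} (h : l.Perm (List.range n)) : l.length = n := by
  rw [h.length_eq, List.length_range]

lemma card3 {B C D E : Set (List ℕ)} {f2 f3 f4 : List ℕ → List ℕ}
    (hB : B.Finite) (hC : C.Finite) (hD : D.Finite)
    (h : E ⊆ f2 '' B ∪ f3 '' C ∪ f4 '' D) :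
    E.ncard ≤ B.ncard + C.ncard + D.ncard := by
  have := card4 (A := ∅) (f1 := id) Set.finite_empty hB hC hD
    (h.trans (by rw [Set.image_empty, Set.empty_union]))
  simpa using this

lemma rec_I (n : ℕ) : (II (n + 3)).ncard ≤ (HH (n + 2)).ncard +
    (HH (n + 1)).ncard + (HH n).ncard := by
  refine card3 (f2 := e1) (f3 := e2) (f4 := e3) (Wd_finite _ _)
    (Wd_finite _ _) (Wd_finite _ _) ?_
  rintro l ⟨hl, hg, hi⟩
  have hlen := len_of hl
  rcases decomp hl hg with ⟨l', h1, h2, h3⟩ | ⟨a, r, h1, h2, h3, h4⟩ | ⟨m, a, r, h0, h1, h2, h3, h4⟩ |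
    ⟨m, a, r, h0, h1, h2, h3, h4⟩
  · exfalso
    obtain ⟨x, hx, hx2⟩ := hi.2 1 (by norm_num) (by omega)
    rw [h3] at hx
    simp at hx
    omega
  · left; left
    refine ⟨a :: r, ⟨h1, h2, ⟨a, r, rfl, h3⟩, ?_⟩, h4.symm⟩
    exact ind_down (pre := []) (j := 1) rfl (by simp) (by rw [h4] at hi; exact hi)
  · left; right
    obtain rfl : m = n + 1 := by omega
    refine ⟨a :: r, ⟨h1, h2, ⟨a, r, rfl, h3⟩, ?_⟩, h4.symm⟩
    exact ind_down (pre := [1]) (j := 2) rfl (by simp) (by rw [h4] at hi; exact hi)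
  · right
    obtain rfl : m = n := by omega
    refine ⟨a :: r, ⟨h1, h2, ⟨a, r, rfl, h3⟩, ?_⟩, h4.symm⟩
    exact ind_down (pre := [1, 2]) (j := 3) rfl (by simp) (by rw [h4] at hi; exact hi)

lemma rec_H (n : ℕ) : (HH (n + 3)).ncard ≤ (HH (n + 1)).ncard + (HH n).ncard := by
  have := card3 (B := ∅) (C := HH (n + 1)) (D := HH n) (E := HH (n + 3)) (f2 := id) (f3 := e2)
    (f4 := e3) Set.finite_empty (Wd_finite _ _) (Wd_finite _ _) ?_
  · simpa using this
  rintro l ⟨hl, hg, ⟨a', r', hd, hle⟩, hi⟩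
  have hlen := len_of hl
  rcases decomp hl hg with ⟨l', h1, h2, h3⟩ | ⟨a, r, h1, h2, h3, h4⟩ | ⟨m, a, r, h0, h1, h2, h3, h4⟩ |
    ⟨m, a, r, h0, h1, h2, h3, h4⟩
  · exfalso
    obtain ⟨x, hx, hx2⟩ := hi.2 1 (by norm_num) (by omega)
    rw [h3] at hx
    simp at hx
    omega
  · exfalso
    have ha : a = 0 := by
      rw [h4] at hd
      have := (List.cons.inj hd).1
      omega
    subst ha
    obtain ⟨x, hx, hx2⟩ := hi.2 2 (by norm_num) (by omega)
    rw [h4] at hx
    simp at hx
    omega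
  · left; right
    obtain rfl : m = n + 1 := by omega
    refine ⟨a :: r, ⟨h1, h2, ⟨a, r, rfl, h3⟩, ?_⟩, h4.symm⟩
    exact ind_down (pre := [1]) (j := 2) rfl (by simp) (by rw [h4] at hi; exact hi)
  · right
    obtain rfl : m = n := by omega
    refine ⟨a :: r, ⟨h1, h2, ⟨a, r, rfl, h3⟩, ?_⟩, h4.symm⟩
    exact ind_down (pre := [1, 2]) (j := 3) rfl (by simp) (by rw [h4] at hi; exact hi)

/-! ### Lower bound -/

lemma tail_good {a j : ℕ} {r s : List ℕ} (hg : Good (a :: r)) (ha : a ≤ 1)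
    (hs : s.Sublist ((a + j) :: 0 :: r.map (· + j))) : ¬ Bad s := by
  intro hb
  have hgm := map_good j hg
  rw [List.map_cons] at hgm
  rw [List.sublist_cons_iff] at hs
  rcases hs with hs | ⟨s', rfl, hs⟩
  · rw [List.sublist_cons_iff] at hs
    rcases hs with hs | ⟨s', rfl, hs⟩
    · exact hgm s (hs.cons _) hb
    · rcases hb with (⟨x, y, z, hs, h1, h2⟩ | ⟨x, y, z, w, hs, h1, h2, h3⟩ |
        ⟨x, y, z, w, hs, h1, h2, h3⟩ | ⟨x, y, z, u, v, hs, h1, h2, h3, h4⟩) <;>
        (have := (List.cons.inj hs).1; omega)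
  · rw [List.sublist_cons_iff] at hs
    rcases hs with hs | ⟨s'', rfl, hs⟩
    · exact hgm _ (hs.cons_cons _) hb
    · rcases hb with (⟨x, y, z, hs', h1, h2⟩ | ⟨x, y, z, w, hs', h1, h2, h3⟩ |
        ⟨x, y, z, w, hs', h1, h2, h3⟩ | ⟨x, y, z, u, v, hs', h1, h2, h3, h4⟩)
      · simp only [List.cons.injEq] at hs'; omega
      · simp only [List.cons.injEq] at hs'; omega
      · simp only [List.cons.injEq] at hs'
        obtain ⟨e1, e2, rfl⟩ := hs'
        have h5 := hs.subset (List.mem_cons_self (a := z))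
        rw [List.mem_map] at h5
        obtain ⟨z', -, h5⟩ := h5
        omega
      · simp only [List.cons.injEq] at hs'; omega

lemma last0 {P r s : List ℕ} (h : (s ++ [0]).Sublist (P ++ 0 :: r)) (h0 : 0 ∉ r) :
    s.length ≤ P.length := by
  have e : P ++ 0 :: r = (P ++ [0]) ++ r := by simp
  rw [e, List.sublist_append_iff] at h
  obtain ⟨s1, s2, h1, h2, h3⟩ := h
  have h4 : s2 = [] := by
    by_contra hne
    obtain ⟨s2', b, rfl⟩ : ∃ l b, s2 = l ++ [b] := ⟨_, _, (List.dropLast_append_getLast hne).symm⟩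
    rw [← List.append_assoc] at h1
    have := (List.append_inj' h1 rfl).2
    rw [List.cons.injEq] at this
    rw [← this.1] at h3
    exact h0 (h3.subset (by simp))
  subst h4
  rw [List.append_nil] at h1
  subst h1
  have := h2.length_le
  simpa using this

lemma good_e2 {a : ℕ} {r : List ℕ} (hg : Good (a :: r)) (ha : a ≤ 1) : Good (e2 (a :: r)) := by
  intro s hs hb
  change s.Sublist (1 :: (a + 2) :: 0 :: r.map (· + 2)) at hs
  have hs0 := hs
  rw [List.sublist_cons_iff] at hs
  rcases hs with hs | ⟨s', rfl, hs⟩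
  · exact tail_good hg ha hs hb
  · rcases hb with (⟨x, y, z, hs', h1, h2⟩ | ⟨x, y, z, w, hs', h1, h2, h3⟩ |
        ⟨x, y, z, w, hs', h1, h2, h3⟩ | ⟨x, y, z, u, v, hs', h1, h2, h3, h4⟩)
    · simp only [List.cons.injEq] at hs'; omega
    · simp only [List.cons.injEq] at hs'; omega
    · simp only [List.cons.injEq] at hs'; omega
    · have hv : v = 0 := by
        simp only [List.cons.injEq] at hs'; omega
      subst hv
      rw [hs'] at hs0
      have := last0 (P := [1, a + 2]) (s := [x, y, z, u]) hs0 (by simp)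
      simp at this

lemma good_e3 {a : ℕ} {r : List ℕ} (hg : Good (a :: r)) (ha : a ≤ 1) : Good (e3 (a :: r)) := by
  intro s hs hb
  change s.Sublist (1 :: 2 :: (a + 3) :: 0 :: r.map (· + 3)) at hs
  have hs0 := hs
  have key : ∀ x y z u, ¬ [x, y, z, u, 0].Sublist (1 :: 2 :: (a + 3) :: 0 :: r.map (· + 3)) := by
    intro x y z u h
    have := last0 (P := [1, 2, a + 3]) (s := [x, y, z, u]) h (by simp)
    simp at this
  rw [List.sublist_cons_iff] at hs
  rcases hs with hs | ⟨s', rfl, hs⟩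
  · rw [List.sublist_cons_iff] at hs
    rcases hs with hs | ⟨s', rfl, hs⟩
    · exact tail_good hg ha hs hb
    · have hel : ∀ x ∈ s', x = 0 ∨ 3 ≤ x := by
        intro x hx
        have := hs.subset hx
        simp only [List.mem_cons, List.mem_map] at this
        omega
      rcases hb with (⟨x, y, z, hs', h1, h2⟩ | ⟨x, y, z, w, hs', h1, h2, h3⟩ |
          ⟨x, y, z, w, hs', h1, h2, h3⟩ | ⟨x, y, z, u, v, hs', h1, h2, h3, h4⟩)
      · simp only [List.cons.injEq] at hs'
        obtain ⟨e, rfl⟩ := hs'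
        have := hel y (by simp); have := hel z (by simp); omega
      · simp only [List.cons.injEq] at hs'
        obtain ⟨e, rfl⟩ := hs'
        have := hel z (by simp); have := hel w (by simp); omega
      · simp only [List.cons.injEq] at hs'
        obtain ⟨e, rfl⟩ := hs'
        have := hel w (by simp); have := hel z (by simp); omega
      · have hv : v = 0 := by
          simp only [List.cons.injEq] at hs'
          obtain ⟨e, rfl⟩ := hs'
          have := hel v (by simp); omega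
        subst hv
        rw [hs'] at hs0
        exact key _ _ _ _ hs0
  · rcases hb with (⟨x, y, z, hs', h1, h2⟩ | ⟨x, y, z, w, hs', h1, h2, h3⟩ |
        ⟨x, y, z, w, hs', h1, h2, h3⟩ | ⟨x, y, z, u, v, hs', h1, h2, h3, h4⟩)
    · simp only [List.cons.injEq] at hs'; omega
    · simp only [List.cons.injEq] at hs'; omega
    · simp only [List.cons.injEq] at hs'; omega
    · have hv : v = 0 := by
        simp only [List.cons.injEq] at hs'; omega
      subst hv
      rw [hs'] at hs0
      exact key _ _ _ _ hs0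

lemma e2_mem {n : ℕ} {l : List ℕ} (h : l ∈ HH n) : e2 l ∈ HH (n + 2) := by
  obtain ⟨hl, hg, ⟨a, r, rfl, ha⟩, hi⟩ := h
  refine ⟨?_, good_e2 hg ha, ⟨1, _, rfl, le_rfl⟩, ?_⟩
  · have h1 := unshift (k := 2) hl
    refine List.Perm.trans ?_ h1
    have h2 : ([1, a + 2] ++ 0 :: r.map (· + 2)).Perm (0 :: ([1, a + 2] ++ r.map (· + 2))) :=
      List.perm_middle
    exact h2
  · exact ind_up (pre := [1]) (j := 2) rfl (by
      intro k hk hk2
      obtain rfl : k = 1 := by simp at hk2; omega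
      exact ⟨1, by simp, le_rfl⟩) hi

lemma e3_mem {n : ℕ} {l : List ℕ} (h : l ∈ HH n) : e3 l ∈ HH (n + 3) := by
  obtain ⟨hl, hg, ⟨a, r, rfl, ha⟩, hi⟩ := h
  refine ⟨?_, good_e3 hg ha, ⟨1, _, rfl, le_rfl⟩, ?_⟩
  · have h1 := unshift (k := 3) hl
    refine List.Perm.trans ?_ h1
    have h2 : ([1, 2, a + 3] ++ 0 :: r.map (· + 3)).Perm (0 :: ([1, 2, a + 3] ++ r.map (· + 3))) :=
      List.perm_middle
    exact h2
  · exact ind_up (pre := [1, 2]) (j := 3) rfl (by
      intro k hk hk2
      simp only [List.length_cons, List.length_nil] at hk2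
      obtain rfl | rfl : k = 1 ∨ k = 2 := by omega
      · exact ⟨1, by simp, le_rfl⟩
      · exact ⟨2, by simp, le_rfl⟩) hi

lemma map_add_inj (k : ℕ) : Function.Injective (List.map (fun x : ℕ => x + k)) :=
  List.map_injective_iff.2 (add_left_injective k)

lemma e2_inj {n : ℕ} : Set.InjOn e2 (HH n) := by
  rintro _ ⟨-, -, ⟨a, r, rfl, -⟩, -⟩ _ ⟨-, -, ⟨b, t, rfl, -⟩, -⟩ h
  simp only [e2, List.cons.injEq] at h
  obtain ⟨-, h1, -, h2⟩ := h
  rw [map_add_inj 2 h2]
  congr 1
  omega

lemma e3_inj {n : ℕ} : Set.InjOn e3 (HH n) := by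
  rintro _ ⟨-, -, ⟨a, r, rfl, -⟩, -⟩ _ ⟨-, -, ⟨b, t, rfl, -⟩, -⟩ h
  simp only [e3, List.cons.injEq] at h
  obtain ⟨-, -, h1, -, h2⟩ := h
  rw [map_add_inj 3 h2]
  congr 1
  omega

lemma H_mono2 (n : ℕ) : (HH n).ncard ≤ (HH (n + 2)).ncard := by
  rw [← e2_inj.ncard_image]
  apply Set.ncard_le_ncard _ (Wd_finite _ _)
  rintro _ ⟨l, hl, rfl⟩
  exact e2_mem hl

lemma H_mono3 (n : ℕ) : (HH n).ncard ≤ (HH (n + 3)).ncard := by
  rw [← e3_inj.ncard_image]
  apply Set.ncard_le_ncard _ (Wd_finite _ _)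
  rintro _ ⟨l, hl, rfl⟩
  exact e3_mem hl

lemma H_add (n : ℕ) : (HH (n + 3)).ncard + (HH (n + 2)).ncard ≤ (HH (n + 5)).ncard := by
  rw [← (e2_inj (n := n + 3)).ncard_image, ← (e3_inj (n := n + 2)).ncard_image,
    ← Set.ncard_union_eq ?_ ((Wd_finite _ _).image _) ((Wd_finite _ _).image _)]
  · apply Set.ncard_le_ncard _ (Wd_finite _ _)
    rintro _ (⟨l, hl, rfl⟩ | ⟨l, hl, rfl⟩)
    · exact e2_mem hl
    · exact e3_mem hl
  · rw [Set.disjoint_left]
    rintro _ ⟨l, hl, rfl⟩ ⟨l', hl', h⟩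
    obtain ⟨-, -, ⟨a, r, rfl, -⟩, -⟩ := hl
    obtain ⟨-, -, ⟨b, t, rfl, -⟩, -⟩ := hl'
    simp only [e2, e3, List.cons.injEq] at h
    omega

lemma H_one : 1 ≤ (HH 1).ncard := by
  have : [0] ∈ HH 1 := by
    refine ⟨List.Perm.refl _, ?_, ⟨0, [], rfl, by norm_num⟩, by simp, ?_⟩
    · intro s hs hb
      have := hs.length_le
      rcases hb with (⟨x, y, z, rfl, h1, h2⟩ | ⟨x, y, z, w, rfl, h1, h2, h3⟩ |
        ⟨x, y, z, w, rfl, h1, h2, h3⟩ | ⟨x, y, z, u, v, rfl, h1, h2, h3, h4⟩) <;> simp at this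
    · intro k hk hk2
      simp at hk2
      omega
  have h := (Set.ncard_pos (Wd_finite _ _)).2 ⟨_, this⟩
  exact h

lemma H_pow (j : ℕ) : 2 ^ j ≤ (HH (5 * j + 1)).ncard := by
  induction j with
  | zero => exact H_one
  | succ j ih =>
    have h1 := H_add (5 * j + 1)
    have h2 := H_mono2 (5 * j + 1)
    have h3 := H_mono3 (5 * j + 1)
    have e : 5 * (j + 1) + 1 = 5 * j + 1 + 5 := by ring
    rw [e, pow_succ]
    omega

/-! ### Growth rates -/

lemma bound_FG (n : ℕ) : ((FF n).ncard : ℝ) ≤ 6 * (47 / 20) ^ n ∧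
    ((GG n).ncard : ℝ) ≤ 5 * (47 / 20) ^ n := by
  induction n using Nat.strong_induction_on with
  | _ n ih =>
    match n with
    | 0 =>
      have h1 : ((FF 0).ncard : ℝ) ≤ 1 := by exact_mod_cast Wd_card_le _ 0
      have h2 : ((GG 0).ncard : ℝ) ≤ 1 := by exact_mod_cast Wd_card_le _ 0
      rw [pow_zero, mul_one, mul_one]
      constructor <;> linarith
    | 1 =>
      have h1 : ((FF 1).ncard : ℝ) ≤ 1 := by exact_mod_cast Wd_card_le _ 1
      have h2 : ((GG 1).ncard : ℝ) ≤ 1 := by exact_mod_cast Wd_card_le _ 1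
      constructor <;> norm_num <;> linarith
    | 2 =>
      have h1 : ((FF 2).ncard : ℝ) ≤ 2 := by exact_mod_cast Wd_card_le _ 2
      have h2 : ((GG 2).ncard : ℝ) ≤ 2 := by exact_mod_cast Wd_card_le _ 2
      constructor <;> norm_num <;> linarith
    | m + 3 =>
      obtain ⟨a1, b1⟩ := ih (m + 2) (by omega)
      obtain ⟨a2, b2⟩ := ih (m + 1) (by omega)
      obtain ⟨a3, b3⟩ := ih m (by omega)
      have h1 : ((FF (m + 3)).ncard : ℝ) ≤ (FF (m + 2)).ncard + (GG (m + 2)).ncard +
        (GG (m + 1)).ncard + (GG m).ncard := by exact_mod_cast rec_F m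
      have h2 : ((GG (m + 3)).ncard : ℝ) ≤ (FF (m + 2)).ncard + (FF (m + 1)).ncard +
        (GG (m + 1)).ncard + (GG m).ncard := by exact_mod_cast rec_G m
      have hp : (0 : ℝ) < (47 / 20) ^ m := by positivity
      rw [pow_add] at a1 b1 a2 b2
      rw [pow_add]
      norm_num at a1 b1 a2 b2 ⊢
      constructor <;> linarith

lemma bound_H (n : ℕ) : ((HH n).ncard : ℝ) ≤ 2 * (7 / 5) ^ n := by
  induction n using Nat.strong_induction_on with
  | _ n ih =>
    match n with
    | 0 =>
      have h1 : ((HH 0).ncard : ℝ) ≤ 1 := by exact_mod_cast Wd_card_le _ 0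
      rw [pow_zero, mul_one]; linarith
    | 1 =>
      have h1 : ((HH 1).ncard : ℝ) ≤ 1 := by exact_mod_cast Wd_card_le _ 1
      norm_num; linarith
    | 2 =>
      have h1 : ((HH 2).ncard : ℝ) ≤ 2 := by exact_mod_cast Wd_card_le _ 2
      norm_num; linarith
    | m + 3 =>
      have a2 := ih (m + 1) (by omega)
      have a3 := ih m (by omega)
      have h1 : ((HH (m + 3)).ncard : ℝ) ≤ (HH (m + 1)).ncard + (HH m).ncard := by
        exact_mod_cast rec_H m
      have hp : (0 : ℝ) < (7 / 5) ^ m := by positivity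
      rw [pow_add] at a2
      rw [pow_add]
      norm_num at a2 ⊢
      linarith

lemma bound_I (n : ℕ) : ((II n).ncard : ℝ) ≤ 6 * (7 / 5) ^ n := by
  match n with
  | 0 =>
    have h1 : ((II 0).ncard : ℝ) ≤ 1 := by exact_mod_cast Wd_card_le _ 0
    rw [pow_zero, mul_one]; linarith
  | 1 =>
    have h1 : ((II 1).ncard : ℝ) ≤ 1 := by exact_mod_cast Wd_card_le _ 1
    norm_num; linarith
  | 2 =>
    have h1 : ((II 2).ncard : ℝ) ≤ 2 := by exact_mod_cast Wd_card_le _ 2
    norm_num; linarith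
  | m + 3 =>
    have a1 := bound_H (m + 2)
    have a2 := bound_H (m + 1)
    have a3 := bound_H m
    have h1 : ((II (m + 3)).ncard : ℝ) ≤ (HH (m + 2)).ncard + (HH (m + 1)).ncard +
      (HH m).ncard := by exact_mod_cast rec_I m
    have hp : (0 : ℝ) < (7 / 5) ^ m := by positivity
    rw [pow_add] at a1 a2
    rw [pow_add]
    norm_num at a1 a2 ⊢
    linarith

lemma cnt_C (n : ℕ) : cnt Cst n = (FF n).ncard := cnt_eq Cst Good n (fun _ => Iff.rfl)

lemma cnt_I (n : ℕ) : cnt (ind Cst) n = (II n).ncard :=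
  cnt_eq (ind Cst) _ n (fun σ => and_congr Iff.rfl (indec_iff σ))

lemma eventually_le {K r r' : ℝ} (hr : 0 < r) (hr' : r < r') :
    ∀ᶠ n : ℕ in Filter.atTop, K * r ^ n ≤ r' ^ n := by
  have h0 : 0 < r' := hr.trans hr'
  have h1 : Filter.Tendsto (fun n : ℕ => K * (r / r') ^ n) Filter.atTop (nhds (K * 0)) :=
    (tendsto_pow_atTop_nhds_zero_of_lt_one (by positivity) ((div_lt_one h0).2 hr')).const_mul K
  rw [mul_zero] at h1
  filter_upwards [h1.eventually (gt_mem_nhds one_pos)] with n hn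
  have h2 : (r / r') ^ n = r ^ n / r' ^ n := div_pow _ _ _
  rw [h2, ← mul_div_assoc, div_lt_one (by positivity)] at hn
  exact hn.le

lemma upGr_le {X : Set PP} {K r r' : ℝ} (hr : 0 < r) (hr' : r < r')
    (h : ∀ n, (cnt X n : ℝ) ≤ K * r ^ n) : upGr X ≤ ENNReal.ofReal r' := by
  have h0 : 0 < r' := hr.trans hr'
  refine Filter.limsup_le_of_le (by isBoundedDefault) ?_
  filter_upwards [eventually_le (K := K) hr hr', Filter.eventually_gt_atTop 0] with n hn hn0
  have h1 : ((cnt X n : ℕ) : ℝ≥0∞) ≤ (ENNReal.ofReal r') ^ n := by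
    rw [← ENNReal.ofReal_pow h0.le, ← ENNReal.ofReal_natCast]
    exact ENNReal.ofReal_le_ofReal ((h n).trans hn)
  have hn1 : (n : ℝ) ≠ 0 := by exact_mod_cast hn0.ne'
  calc ((cnt X n : ℕ) : ℝ≥0∞) ^ ((1 : ℝ) / (n : ℝ)) ≤
        ((ENNReal.ofReal r') ^ n) ^ ((1 : ℝ) / (n : ℝ)) := ENNReal.rpow_le_rpow h1 (by positivity)
    _ = ENNReal.ofReal r' := by
        rw [← ENNReal.rpow_natCast, ← ENNReal.rpow_mul, mul_one_div_cancel hn1, ENNReal.rpow_one]

lemma H_le_I (n : ℕ) : (HH n).ncard ≤ (II n).ncard :=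
  Set.ncard_le_ncard (fun _ h => ⟨h.1, h.2.1, h.2.2.2⟩) (Wd_finite _ _)

lemma upGr_ge : ENNReal.ofReal (11 / 10) ≤ upGr (ind Cst) := by
  refine Filter.le_limsup_of_frequently_le ?_
  · rw [Filter.frequently_atTop]
    intro a
    refine ⟨5 * (a + 1) + 1, by omega, ?_⟩
    have h1 : 2 ^ (a + 1) ≤ cnt (ind Cst) (5 * (a + 1) + 1) := by
      rw [cnt_I]
      exact (H_pow (a + 1)).trans (H_le_I _)
    have h2 : ((11 : ℝ) / 10) ^ (5 * (a + 1) + 1) ≤ 2 ^ (a + 1) := by
      calc ((11 : ℝ) / 10) ^ (5 * (a + 1) + 1) ≤ ((11 : ℝ) / 10) ^ (6 * (a + 1)) := by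
            apply pow_le_pow_right₀ (by norm_num)
            omega
        _ = (((11 : ℝ) / 10) ^ 6) ^ (a + 1) := by rw [pow_mul]
        _ ≤ _ := by
            apply pow_le_pow_left₀ (by positivity)
            norm_num
    have h3 : (ENNReal.ofReal (11 / 10)) ^ (5 * (a + 1) + 1) ≤
        ((cnt (ind Cst) (5 * (a + 1) + 1) : ℕ) : ℝ≥0∞) := by
      rw [← ENNReal.ofReal_pow (by norm_num), ← ENNReal.ofReal_natCast]
      apply ENNReal.ofReal_le_ofReal
      refine h2.trans ?_
      exact_mod_cast h1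
    have hn1 : ((5 * (a + 1) + 1 : ℕ) : ℝ) ≠ 0 := by positivity
    calc ENNReal.ofReal (11 / 10) = ((ENNReal.ofReal (11 / 10)) ^ (5 * (a + 1) + 1)) ^
          ((1 : ℝ) / ((5 * (a + 1) + 1 : ℕ) : ℝ)) := by
          rw [← ENNReal.rpow_natCast, ← ENNReal.rpow_mul, mul_one_div_cancel hn1, ENNReal.rpow_one]
      _ ≤ _ := ENNReal.rpow_le_rpow h3 (by positivity)

/-- the growth rate of the indecomposables -/
theorem ind_growth : 1 < upGr (ind Cst) ∧ upGr (ind Cst) ≤ ENNReal.ofReal (3 / 2) := by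
  refine ⟨lt_of_lt_of_le ?_ upGr_ge, ?_⟩
  · rw [← ENNReal.ofReal_one]
    exact (ENNReal.ofReal_lt_ofReal_iff (by norm_num)).2 (by norm_num)
  · apply upGr_le (K := 6) (r := 7 / 5) (by norm_num) (by norm_num)
    intro n
    rw [cnt_I]
    exact bound_I n

lemma mult (m n : ℕ) : (FF m).ncard * (FF n).ncard ≤ (FF (m + n)).ncard := by
  rw [← Set.ncard_prod]
  have hinj : Set.InjOn (fun p : List ℕ × List ℕ => p.1 ++ p.2.map (· + m)) (FF m ×ˢ FF n) := by
    rintro ⟨a, b⟩ ⟨ha, hb⟩ ⟨c, d⟩ ⟨hc, hd⟩ h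
    simp only at h ha hb hc hd
    have := List.append_inj h (by rw [len_of ha.1, len_of hc.1])
    rw [this.1, map_add_inj m this.2]
  rw [← hinj.ncard_image]
  apply Set.ncard_le_ncard _ (Wd_finite _ _)
  rintro _ ⟨⟨a, b⟩, ⟨ha, hb⟩, rfl⟩
  refine ⟨?_, good_append ha.2 hb.2 (lt_of_word ha.1)⟩
  have h1 := unshift (k := m) hb.1
  rw [add_comm n m] at h1
  exact (ha.1.append_right _).trans h1

lemma F_pos (n : ℕ) : 1 ≤ (FF n).ncard := by
  induction n with
  | zero =>
    refine (Set.ncard_pos (Wd_finite _ _)).2 ⟨[], List.Perm.refl _, ?_⟩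
    intro s hs hb
    have := hs.length_le
    rcases hb with (⟨x, y, z, rfl, h1, h2⟩ | ⟨x, y, z, w, rfl, h1, h2, h3⟩ |
      ⟨x, y, z, w, rfl, h1, h2, h3⟩ | ⟨x, y, z, u, v, rfl, h1, h2, h3, h4⟩) <;> simp at this
  | succ n ih =>
    have h1 := mult n 1
    have h2 : 1 ≤ (FF 1).ncard := H_one.trans
      (Set.ncard_le_ncard (fun _ h => ⟨h.1, h.2.1⟩) (Wd_finite _ _))
    have := Nat.mul_le_mul ih h2
    omega

/-- the growth rate of the class exists and is at most `12/5` -/
theorem growth : ∃ L : ℝ, Filter.Tendsto (fun n : ℕ => (cnt Cst n : ℝ) ^ ((1 : ℝ) / (n : ℝ)))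
    Filter.atTop (nhds L) ∧ L ≤ 12 / 5 := by
  have hpos : ∀ n, (0 : ℝ) < (cnt Cst n : ℝ) := by
    intro n
    rw [cnt_C]
    exact_mod_cast F_pos n
  have hsub : Subadditive (fun n => -Real.log (cnt Cst n)) := by
    intro m n
    rw [← neg_add, neg_le_neg_iff, ← Real.log_mul (hpos m).ne' (hpos n).ne']
    apply Real.log_le_log (mul_pos (hpos m) (hpos n))
    rw [cnt_C, cnt_C, cnt_C]
    exact_mod_cast mult m n
  have hbd : BddBelow (Set.range fun n : ℕ => -Real.log (cnt Cst n) / n) := by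
    refine ⟨-(Real.log 6 + Real.log (47 / 20)), ?_⟩
    rintro _ ⟨n, rfl⟩
    simp only
    rcases Nat.eq_zero_or_pos n with rfl | hn
    · simp only [Nat.cast_zero, div_zero, neg_nonpos]
      have h1 : 0 ≤ Real.log 6 := Real.log_nonneg (by norm_num)
      have h2 : 0 ≤ Real.log (47 / 20) := Real.log_nonneg (by norm_num)
      linarith
    · have hn' : (1 : ℝ) ≤ n := by exact_mod_cast hn
      have h1 : Real.log (cnt Cst n) ≤ Real.log 6 + n * Real.log (47 / 20) := by
        rw [← Real.log_pow, ← Real.log_mul (by norm_num) (by positivity)]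
        apply Real.log_le_log (hpos n)
        rw [cnt_C]
        exact (bound_FG n).1
      rw [neg_div, neg_le_neg_iff, div_le_iff₀ (by linarith)]
      have h2 : 0 ≤ Real.log 6 := Real.log_nonneg (by norm_num)
      nlinarith
  have ht := hsub.tendsto_lim hbd
  have he : Filter.Tendsto (fun n : ℕ => Real.exp (-(-Real.log (cnt Cst n) / n))) Filter.atTop
      (nhds (Real.exp (-hsub.lim))) := (Real.continuous_exp.tendsto _).comp ht.neg
  have heq : (fun n : ℕ => Real.exp (-(-Real.log (cnt Cst n) / n))) =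
      fun n : ℕ => (cnt Cst n : ℝ) ^ ((1 : ℝ) / (n : ℝ)) := by
    funext n
    rw [Real.rpow_def_of_pos (hpos n)]
    congr 1
    ring
  rw [heq] at he
  refine ⟨_, he, le_of_tendsto he ?_⟩
  filter_upwards [eventually_le (K := 6) (r := 47 / 20) (r' := 12 / 5) (by norm_num) (by norm_num),
    Filter.eventually_gt_atTop 0] with n hn hn0
  have hn1 : (n : ℝ) ≠ 0 := by exact_mod_cast hn0.ne'
  have h1 : (cnt Cst n : ℝ) ≤ (12 / 5) ^ n := by
    rw [cnt_C]
    exact (bound_FG n).1.trans hn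
  calc (cnt Cst n : ℝ) ^ ((1 : ℝ) / (n : ℝ)) ≤ (((12 : ℝ) / 5) ^ n) ^ ((1 : ℝ) / (n : ℝ)) :=
        Real.rpow_le_rpow (hpos n).le h1 (by positivity)
    _ = 12 / 5 := by
        rw [← Real.rpow_natCast, ← Real.rpow_mul (by norm_num), mul_one_div_cancel hn1,
          Real.rpow_one]

end Pool.Agent.Q285.SumC
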